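import Pool.Agent.K4H95.ZP.Asy
import Pool.Agent.H305R2.MertensE

/-!
# Sharp cut-offs
-/

set_option autoImplicit false

namespace Pool.Agent.K4H95.ZP

open Filter Topology MeasureTheory
open Pool.Agent.Y852.SX (Bq rp rp_pos rp_lt rp_sq)

noncomputable section

/-- the sharp cut-off -/
def wsh (k : ℝ) (Y : ℕ) (p : Nat.Primes) : ℝ := if (p : ℕ) ≤ Y then k else 0

lemma wsh_sum (k : ℝ) (Y : ℕ) : Summable fun p : Nat.Primes => |wsh k Y p| * rp p := by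
  refine summable_of_hasFiniteSupport ?_
  refine Set.Finite.subset (Finset.finite_toSet (Qn (Y + 1))) fun p hp => ?_
  rw [Finset.mem_coe, mem_Qn]
  by_contra hlt
  apply hp
  simp only
  unfold wsh
  rw [if_neg (by omega), abs_zero, zero_mul]

lemma cw_wsh (k : ℝ) (Y : ℕ) : cw (wsh k Y) = 1 / (2 * Real.pi ^ 2) *
    ∏ p ∈ Qn (Y + 1), (LM (rp p) (2 + k) / LM (rp p) 2) := by
  rw [cw_eq (wsh_sum k Y)]
  congr 1
  rw [tprod_eq_prod (s := Qn (Y + 1))]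
  · refine Finset.prod_congr rfl fun p hp => ?_
    rw [mem_Qn] at hp
    unfold wsh
    rw [if_pos (by omega)]
  · intro p hp
    rw [mem_Qn] at hp
    unfold wsh
    rw [if_neg (by omega), add_zero, div_self (LM_pos' (rp_pos p).le (rp_le p) 2).ne']

lemma sharp_step (k : ℝ) (p : Nat.Primes) : LM (rp p) (2 + k) / LM (rp p) 2 =
    ((1 - 1 / ((p : ℕ) : ℝ)) ^ ((2 + k) ^ 2) * LM (rp p) (2 + k)) * (1 - 1 / ((p : ℕ) : ℝ) ^ 2)⁻¹ *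
      ((1 - (((p : ℕ) : ℝ))⁻¹)⁻¹) ^ (4 * k + k ^ 2) := by
  have h5 := one_sub_pos p
  have h8 := (LM_pos' (rp_pos p).le (rp_le p) 2).ne'
  rw [← loc_four p, ← one_div ((p : ℕ) : ℝ)]
  have h6 : (1 - 1 / ((p : ℕ) : ℝ)) ^ ((2 + k) ^ 2) =
      (1 - 1 / ((p : ℕ) : ℝ)) ^ 4 * (1 - 1 / ((p : ℕ) : ℝ)) ^ (4 * k + k ^ 2) := by
    have h7 : (1 - 1 / ((p : ℕ) : ℝ)) ^ 4 = (1 - 1 / ((p : ℕ) : ℝ)) ^ ((4 : ℕ) : ℝ) :=
      (Real.rpow_natCast _ 4).symm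
    rw [h7, ← Real.rpow_add h5]
    congr 1
    push_cast
    ring
  rw [h6, Real.inv_rpow h5.le]
  have h9 := (Real.rpow_pos_of_pos h5 (4 * k + k ^ 2)).ne'
  have h10 : (1 - 1 / ((p : ℕ) : ℝ)) ^ 4 ≠ 0 := (pow_pos h5 4).ne'
  field_simp

/-- **the sharp cut-off** -/
theorem cw_sharp (k : ℝ) : Tendsto (fun Y : ℕ => cw (wsh k Y) /
    (Real.exp Real.eulerMascheroniConstant * Real.log Y) ^ (4 * k + k ^ 2)) atTop (𝓝 (1 / 12 * arr (2 + k))) := by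
  obtain ⟨κ₁, κ₂, -, -, hk⟩ := cw_asymp 0
  obtain ⟨hm, hpos, -⟩ := hk k
  have hQ : Tendsto (fun Y : ℕ => Qn (Y + 1)) atTop atTop := Qn_tendsto.comp (tendsto_add_atTop_nat 1)
  have l1 : Tendsto (fun Y : ℕ => ∏ p ∈ Qn (Y + 1), (1 - 1 / ((p : ℕ) : ℝ)) ^ ((2 + k) ^ 2) * LM (rp p) (2 + k))
      atTop (𝓝 (arr (2 + k))) := hm.hasProd.comp hQ
  have l2 : Tendsto (fun Y : ℕ => ∏ p ∈ Qn (Y + 1), (1 - 1 / ((p : ℕ) : ℝ) ^ 2)) atTop (𝓝 (6 / Real.pi ^ 2)) :=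
    prod_six.comp hQ
  have hpi := Real.pi_pos
  have l3 := l2.inv₀ (by positivity)
  have hM := Pool.Agent.H305R2.mertens_three
  have l4 : Tendsto (fun N : ℕ => ((∏ p ∈ (Finset.Icc 1 N).filter Nat.Prime, (1 - (p : ℝ)⁻¹)⁻¹) /
      (Real.exp Real.eulerMascheroniConstant * Real.log N)) ^ (4 * k + k ^ 2)) atTop (𝓝 1) := by
    have h1 := hM.div_const (Real.exp Real.eulerMascheroniConstant)
    rw [div_self (Real.exp_pos _).ne'] at h1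
    have h2 := h1.rpow_const (p := 4 * k + k ^ 2) (Or.inl one_ne_zero)
    rw [Real.one_rpow] at h2
    refine h2.congr fun N => ?_
    rw [div_div, mul_comm (Real.log (N : ℝ))]
  have h5 := ((l1.mul l3).mul l4).const_mul (1 / (2 * Real.pi ^ 2))
  have e0 : 1 / (2 * Real.pi ^ 2) * (arr (2 + k) * (6 / Real.pi ^ 2)⁻¹ * 1) = 1 / 12 * arr (2 + k) := by
    field_simp
    ring
  rw [e0] at h5
  refine h5.congr' ?_
  filter_upwards [eventually_gt_atTop 1] with Y hY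
  have hlog : 0 < Real.log (Y : ℝ) := Real.log_pos (by exact_mod_cast hY)
  have hE : 0 < Real.exp Real.eulerMascheroniConstant * Real.log (Y : ℝ) := mul_pos (Real.exp_pos _) hlog
  have e1 : (Finset.Icc 1 Y).filter Nat.Prime = Pn (Y + 1) := by
    unfold Pn
    ext p
    simp only [Finset.mem_filter, Finset.mem_Icc, Finset.mem_range]
    constructor
    · rintro ⟨⟨h1, h2⟩, h3⟩
      exact ⟨by omega, h3⟩
    · rintro ⟨h1, h2⟩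
      exact ⟨⟨h2.one_lt.le, by omega⟩, h2⟩
  have e2 : ∏ p ∈ (Finset.Icc 1 Y).filter Nat.Prime, (1 - (p : ℝ)⁻¹)⁻¹ =
      ∏ p ∈ Qn (Y + 1), (1 - (((p : ℕ) : ℝ))⁻¹)⁻¹ := by
    rw [e1, ← prod_Qn (Y + 1) fun p : ℕ => (1 - (p : ℝ)⁻¹)⁻¹]
  have hnn : ∀ p : Nat.Primes, 0 ≤ (1 - (((p : ℕ) : ℝ))⁻¹)⁻¹ := fun p => by
    have := one_sub_pos p
    rw [one_div] at this
    positivity
  have e3 : ∏ p ∈ Qn (Y + 1), (LM (rp p) (2 + k) / LM (rp p) 2) =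
      (∏ p ∈ Qn (Y + 1), (1 - 1 / ((p : ℕ) : ℝ)) ^ ((2 + k) ^ 2) * LM (rp p) (2 + k)) *
        (∏ p ∈ Qn (Y + 1), (1 - 1 / ((p : ℕ) : ℝ) ^ 2))⁻¹ *
        (∏ p ∈ Qn (Y + 1), (1 - (((p : ℕ) : ℝ))⁻¹)⁻¹) ^ (4 * k + k ^ 2) := by
    rw [← Real.finsetProd_rpow _ _ (fun p _ => hnn p), ← Finset.prod_inv_distrib, ← Finset.prod_mul_distrib,
      ← Finset.prod_mul_distrib]
    exact Finset.prod_congr rfl fun p _ => sharp_step k p
  rw [e2, cw_wsh, Real.div_rpow (Finset.prod_nonneg fun p _ => hnn p) hE.le, e3]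
  ring

end

end Pool.Agent.K4H95.ZP
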