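import Pool.Agent.K4H95.ZP.Fin

/-!
# The asymptotics of the constants
-/

set_option autoImplicit false

namespace Pool.Agent.K4H95.ZP

open Filter Topology MeasureTheory
open Pool.Agent.Y852.SX (Bq rp rp_pos rp_lt rp_sq)
open Pool.Agent.X278.AV (wr wr_bd prod_asymp wt_sum sqrt_two_le re_Wt)
open Pool.Agent.X278.OP (Wt)

noncomputable section

/-- the arithmetic factor -/
def arr (s : ℝ) : ℝ := ∏' p : Nat.Primes, (1 - 1 / ((p : ℕ) : ℝ)) ^ (s ^ 2) * LM (rp p) s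

/-- the constant of the fourth moment with the weights `w` -/
def cw (w : Nat.Primes → ℝ) : ℝ := 1 / 12 * ∏' p : Nat.Primes, (1 - 1 / ((p : ℕ) : ℝ)) ^ 4 * LM (rp p) (2 + w p)

lemma one_sub_pos (p : Nat.Primes) : 0 < 1 - 1 / ((p : ℕ) : ℝ) := by
  have h2 : (2:ℝ) ≤ (p : ℕ) := by exact_mod_cast p.2.two_le
  have : 1 / ((p : ℕ) : ℝ) ≤ 1 / 2 := one_div_le_one_div_of_le (by norm_num) h2
  linarith

lemma one_sub_sq_pos (p : Nat.Primes) : 0 < 1 - 1 / ((p : ℕ) : ℝ) ^ 2 := by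
  have h2 : (2:ℝ) ≤ (p : ℕ) := by exact_mod_cast p.2.two_le
  have : 1 / ((p : ℕ) : ℝ) ^ 2 ≤ 1 / 2 := one_div_le_one_div_of_le (by norm_num) (by nlinarith)
  linarith

/-- the local factor of the fourth moment -/
lemma loc_four (p : Nat.Primes) : (1 - 1 / ((p : ℕ) : ℝ)) ^ 4 * LM (rp p) 2 = 1 - 1 / ((p : ℕ) : ℝ) ^ 2 := by
  have h2 : (2:ℝ) ≤ (p : ℕ) := by exact_mod_cast p.2.two_le
  have h3 : ((p : ℕ) : ℝ) - 1 ≠ 0 := by linarith
  have h4 : (0:ℝ) < (p : ℕ) := by linarith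
  rw [LM_two (rp_pos p).le (rp_lt p p.2)]
  unfold Bq
  simp only [Int.natAbs_zero, pow_zero, one_mul, Nat.cast_zero, zero_mul, add_zero]
  rw [rp_sq p p.2]
  have h5 : (1 - 1 / ((p : ℕ) : ℝ)) ≠ 0 := (one_sub_pos p).ne'
  field_simp
  ring

lemma prod_six : HasProd (fun p : Nat.Primes => 1 - 1 / ((p : ℕ) : ℝ) ^ 2) (6 / Real.pi ^ 2) := by
  have h1 := riemannZeta_eulerProduct_hasProd (s := 2) (by norm_num)
  rw [riemannZeta_two] at h1
  have hpi : (Real.pi : ℂ) ^ 2 / 6 ≠ 0 := by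
    have : (Real.pi : ℂ) ≠ 0 := by exact_mod_cast Real.pi_ne_zero
    exact div_ne_zero (pow_ne_zero _ this) (by norm_num)
  have h2 := (h1.inv₀ hpi).norm
  have e1 : ‖((Real.pi : ℂ) ^ 2 / 6)⁻¹‖ = 6 / Real.pi ^ 2 := by
    rw [norm_inv, norm_div, norm_pow, Complex.norm_real, Real.norm_of_nonneg Real.pi_pos.le]
    simp
  rw [e1] at h2
  refine h2.congr_fun ?_
  intro p
  rw [inv_inv]
  have e2 : (1 : ℂ) - ((p : ℕ) : ℂ) ^ (-(2:ℂ)) = ((1 - 1 / ((p : ℕ) : ℝ) ^ 2 : ℝ) : ℂ) := by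
    rw [Complex.cpow_neg]
    have : ((p : ℕ) : ℂ) ^ (2 : ℂ) = ((p : ℕ) : ℂ) ^ 2 := by
      rw [← Complex.cpow_natCast]
      norm_num
    rw [this]
    push_cast
    rw [one_div]
  rw [e2, Complex.norm_real, Real.norm_of_nonneg (one_sub_sq_pos p).le]

lemma phi_pos (p : Nat.Primes) (x : ℝ) : 0 < LM (rp p) (2 + x) / LM (rp p) 2 :=
  div_pos (LM_pos' (rp_pos p).le (rp_le p) _) (LM_pos' (rp_pos p).le (rp_le p) _)

lemma phi_log {w : Nat.Primes → ℝ} (hw : Summable fun p : Nat.Primes => |w p| * rp p) :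
    Summable fun p : Nat.Primes => Real.log (LM (rp p) (2 + w p) / LM (rp p) 2) := by
  refine Summable.of_norm_bounded (hw.mul_left 8) fun p => ?_
  refine (LM_ratio (rp_pos p).le (rp_le p) 2 (w p)).trans (le_of_eq ?_)
  ring

/-- the two forms of the constant -/
lemma cw_eq {w : Nat.Primes → ℝ} (hw : Summable fun p : Nat.Primes => |w p| * rp p) :
    cw w = 1 / (2 * Real.pi ^ 2) * ∏' p : Nat.Primes, (LM (rp p) (2 + w p) / LM (rp p) 2) := by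
  have hm := Real.multipliable_of_summable_log (fun p => phi_pos p (w p)) (phi_log hw)
  have e1 : ∏' p : Nat.Primes, (1 - 1 / ((p : ℕ) : ℝ)) ^ 4 * LM (rp p) (2 + w p) =
      (∏' p : Nat.Primes, (1 - 1 / ((p : ℕ) : ℝ) ^ 2)) * ∏' p : Nat.Primes, (LM (rp p) (2 + w p) / LM (rp p) 2) := by
    rw [← prod_six.multipliable.tprod_mul hm]
    refine tprod_congr fun p => ?_
    rw [← loc_four p]
    have := (LM_pos' (rp_pos p).le (rp_le p) 2).ne'
    field_simp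
  unfold cw
  rw [e1, prod_six.tprod_eq]
  have hpi := Real.pi_ne_zero
  field_simp
  norm_num

/-- the product of the constant converges -/
lemma cw_mul {w : Nat.Primes → ℝ} (hw : Summable fun p : Nat.Primes => |w p| * rp p) :
    (Multipliable fun p : Nat.Primes => (1 - 1 / ((p : ℕ) : ℝ)) ^ 4 * LM (rp p) (2 + w p)) ∧ 0 < cw w := by
  have hm := Real.multipliable_of_summable_log (fun p => phi_pos p (w p)) (phi_log hw)
  constructor
  · refine (prod_six.multipliable.mul hm).congr fun p => ?_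
    rw [← loc_four p]
    have := (LM_pos' (rp_pos p).le (rp_le p) 2).ne'
    field_simp
  · rw [cw_eq hw, ← Real.rexp_tsum_eq_tprod (fun p => phi_pos p (w p)) (phi_log hw)]
    have := Real.pi_pos
    positivity

/-- **the fourth moment with weights** -/
theorem moment_c {w : Nat.Primes → ℝ} (hw : Summable fun p : Nat.Primes => |w p| * rp p) :
    Tendsto (fun X : ℝ => (∫ t in (0:ℝ)..X, Pool.Agent.Y969.SM.Xz t ^ 4 *
      Real.exp (-∑' p : Nat.Primes, w p * ell t p) ^ (2:ℝ)) / (X * Real.log X ^ 4)) atTop (𝓝 (cw w)) := by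
  classical
  set v : ℕ → ℝ := fun n => if h : n.Prime then w ⟨n, h⟩ else 0 with hv
  have e1 : ∀ p : Nat.Primes, v p = w p := by
    intro p
    rw [hv]
    simp only
    rw [dif_pos p.2]
    rfl
  have h1 := moment_w (w := v) (by simpa only [e1] using hw) (by simpa only [e1] using phi_log hw)
  simp only [e1] at h1
  rw [← cw_eq hw] at h1
  have e2 : ∀ t, Zw v t = Real.exp (-∑' p : Nat.Primes, w p * ell t p) := by
    intro t
    unfold Zw
    simp only [e1]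
  simp only [e2] at h1
  exact h1

/-- the weights of the smooth product -/
def wp (γ T : ℝ) (p : Nat.Primes) : ℝ := wr γ (Real.log (p : ℕ) / T)

lemma wp_sum (γ : ℝ) {T : ℝ} (hT : 0 < T) (k : ℝ) : Summable fun p : Nat.Primes => |k * wp γ T p| * rp p := by
  refine Summable.of_nonneg_of_le (fun p => mul_nonneg (abs_nonneg _) (rp_pos p).le) (fun p => ?_)
    ((wt_sum (γ := γ) hT (B := 1) zero_le_one).mul_left |k|)
  have h1 : |wp γ T p| ≤ ‖Wt γ (Real.log (p : ℕ) / T)‖ := by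
    have := Complex.abs_re_le_norm (Wt γ (Real.log (p : ℕ) / T))
    rw [re_Wt] at this
    exact this
  rw [abs_mul, rp_eq p.2]
  have h2 : (0:ℝ) ≤ 1 / √((p : ℕ) : ℝ) := by positivity
  calc |k| * |wp γ T p| * (1 / √((p : ℕ) : ℝ)) ≤ |k| * ‖Wt γ (Real.log (p : ℕ) / T)‖ * (1 / √((p : ℕ) : ℝ)) := by
        gcongr
    _ = _ := by ring

lemma rp3 (p : Nat.Primes) : rp p ^ 3 = 1 / (√((p : ℕ) : ℝ) * (p : ℕ)) := by
  have h1 : rp p ^ 3 = rp p * rp p ^ 2 := by ring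
  rw [h1, rp_sq p p.2, rp_eq p.2]
  ring

/-- **the asymptotics** -/
theorem cw_asymp (γ : ℝ) : ∃ κ₁ κ₂ : ℝ, 0 < κ₁ ∧ 0 < κ₂ ∧ ∀ k : ℝ,
    (Multipliable fun p : Nat.Primes => (1 - 1 / ((p : ℕ) : ℝ)) ^ ((2 + k) ^ 2) * LM (rp p) (2 + k)) ∧ 0 < arr (2 + k) ∧
    Tendsto (fun T : ℝ => cw (fun p => k * wp γ T p) / T ^ (4 * k + k ^ 2)) atTop
      (𝓝 (1 / 12 * arr (2 + k) * κ₁ ^ k * κ₂ ^ (k ^ 2))) := by
  obtain ⟨κ₁, κ₂, h1, h2, h3⟩ := prod_asymp γ 4 1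
  refine ⟨κ₁, κ₂, h1, h2, fun k => ?_⟩
  obtain ⟨s1, s2, s3⟩ := h3 (fun p x => LM (rp p) (2 + x) / LM (rp p) 2) (fun p x => phi_pos p x)
    (fun p => ((LM_cont (rp_pos p).le (rp_le p)).comp (by fun_prop : Continuous fun x : ℝ => 2 + x)).div_const _)
    (fun K => by
      obtain ⟨C, hC, hb⟩ := LM_exp (S := 2 + |K|) (by positivity)
      refine ⟨2 * C, fun p x hx => ?_⟩
      have b1 := hb (rp p) (rp_pos p).le (rp_le p) (2 + x) (by
        refine (abs_add_le _ _).trans ?_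
        rw [abs_of_pos (by norm_num : (0:ℝ) < 2)]
        linarith [hx, le_abs_self K])
      have b2 := hb (rp p) (rp_pos p).le (rp_le p) 2 (by
        rw [abs_of_pos (by norm_num : (0:ℝ) < 2)]
        linarith [abs_nonneg K])
      rw [Real.log_div (LM_pos' (rp_pos p).le (rp_le p) _).ne' (LM_pos' (rp_pos p).le (rp_le p) _).ne']
      rw [rp3, rp_sq p p.2] at b1 b2
      have e1 : Real.log (LM (rp p) (2 + x)) - Real.log (LM (rp p) 2) - (4 * x + 1 * x ^ 2) / ((p : ℕ) : ℝ) =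
          (Real.log (LM (rp p) (2 + x)) - (2 + x) ^ 2 * (1 / ((p : ℕ) : ℝ))) -
            (Real.log (LM (rp p) 2) - 2 ^ 2 * (1 / ((p : ℕ) : ℝ))) := by ring
      rw [e1]
      refine (abs_sub _ _).trans ((add_le_add b1 b2).trans (le_of_eq ?_))
      ring) k
  have e0 : 4 * k + 1 * k ^ 2 = 4 * k + k ^ 2 := by ring
  rw [e0] at s1 s3
  -- the constant
  have hpos : ∀ p : Nat.Primes, 0 < (1 - (((p : ℕ) : ℝ))⁻¹) ^ (4 * k + k ^ 2) * (LM (rp p) (2 + k) / LM (rp p) 2) := fun p => by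
    have := one_sub_pos p
    rw [one_div] at this
    exact mul_pos (Real.rpow_pos_of_pos this _) (phi_pos p k)
  have hlog : Summable fun p : Nat.Primes =>
      Real.log ((1 - (((p : ℕ) : ℝ))⁻¹) ^ (4 * k + k ^ 2) * (LM (rp p) (2 + k) / LM (rp p) 2)) := by
    refine s1.congr fun p => ?_
    have h5 := one_sub_pos p
    rw [one_div] at h5
    rw [Real.log_mul (Real.rpow_pos_of_pos h5 _).ne' (phi_pos p k).ne', Real.log_rpow h5]
  have hm := Real.multipliable_of_summable_log hpos hlog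
  have hfc : ∀ p : Nat.Primes, (1 - 1 / ((p : ℕ) : ℝ)) ^ ((2 + k) ^ 2) * LM (rp p) (2 + k) =
      (1 - 1 / ((p : ℕ) : ℝ) ^ 2) * ((1 - (((p : ℕ) : ℝ))⁻¹) ^ (4 * k + k ^ 2) * (LM (rp p) (2 + k) / LM (rp p) 2)) := by
    intro p
    have h5 := one_sub_pos p
    rw [← loc_four p, ← one_div]
    have h6 : (1 - 1 / ((p : ℕ) : ℝ)) ^ ((2 + k) ^ 2) = (1 - 1 / ((p : ℕ) : ℝ)) ^ 4 * (1 - 1 / ((p : ℕ) : ℝ)) ^ (4 * k + k ^ 2) := by
      have h7 : (1 - 1 / ((p : ℕ) : ℝ)) ^ 4 = (1 - 1 / ((p : ℕ) : ℝ)) ^ ((4 : ℕ) : ℝ) := (Real.rpow_natCast _ 4).symm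
      rw [h7, ← Real.rpow_add h5]
      congr 1
      push_cast
      ring
    have := (LM_pos' (rp_pos p).le (rp_le p) 2).ne'
    rw [h6]
    field_simp
  have ha : arr (2 + k) = 6 / Real.pi ^ 2 *
      ∏' p : Nat.Primes, (1 - (((p : ℕ) : ℝ))⁻¹) ^ (4 * k + k ^ 2) * (LM (rp p) (2 + k) / LM (rp p) 2) := by
    unfold arr
    rw [← prod_six.tprod_eq, ← prod_six.multipliable.tprod_mul hm]
    exact tprod_congr hfc
  have hP : 0 < ∏' p : Nat.Primes, (1 - (((p : ℕ) : ℝ))⁻¹) ^ (4 * k + k ^ 2) * (LM (rp p) (2 + k) / LM (rp p) 2) := by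
    rw [← Real.rexp_tsum_eq_tprod hpos hlog]
    exact Real.exp_pos _
  have hpi := Real.pi_pos
  refine ⟨(prod_six.multipliable.mul hm).congr fun p => (hfc p).symm, by rw [ha]; positivity, ?_⟩
  have h6 := s3.const_mul (1 / (2 * Real.pi ^ 2))
  have e7 : 1 / (2 * Real.pi ^ 2) * ((∏' p : Nat.Primes, (1 - (((p : ℕ) : ℝ))⁻¹) ^ (4 * k + k ^ 2) *
      (LM (rp p) (2 + k) / LM (rp p) 2)) * κ₁ ^ k * κ₂ ^ (k ^ 2)) = 1 / 12 * arr (2 + k) * κ₁ ^ k * κ₂ ^ (k ^ 2) := by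
    rw [ha]
    generalize (∏' p : Nat.Primes, (1 - (((p : ℕ) : ℝ))⁻¹) ^ (4 * k + k ^ 2) * (LM (rp p) (2 + k) / LM (rp p) 2)) = P
    field_simp
    ring
  rw [e7] at h6
  refine h6.congr' ?_
  filter_upwards [eventually_gt_atTop (0:ℝ)] with T hT
  rw [cw_eq (wp_sum γ hT k)]
  unfold wp
  exact (mul_div_assoc _ _ _).symm

/-- natural numbers -/
theorem arr_nat (k : ℕ) : arr ((k : ℝ) + 1) = ∏' p : Nat.Primes, (1 - 1 / ((p : ℕ) : ℝ)) ^ ((k + 1) ^ 2) *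
    ∑' m : ℕ, (((m + k).choose k : ℕ) : ℝ) ^ 2 / ((p : ℕ) : ℝ) ^ m := by
  unfold arr
  refine tprod_congr fun p => ?_
  have h1 := LM_nat (rp_pos p).le (rp_lt p p.2) k
  push_cast at h1
  rw [h1, rp_sq p p.2]
  have e1 : (1 - 1 / ((p : ℕ) : ℝ)) ^ (((k:ℝ) + 1) ^ 2) = (1 - 1 / ((p : ℕ) : ℝ)) ^ ((k + 1) ^ 2) := by
    have h7 : (1 - 1 / ((p : ℕ) : ℝ)) ^ ((k + 1) ^ 2) = (1 - 1 / ((p : ℕ) : ℝ)) ^ (((k + 1) ^ 2 : ℕ) : ℝ) :=
      (Real.rpow_natCast _ _).symm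
    rw [h7]
    congr 1
    push_cast
    ring
  rw [e1]
  congr 1
  refine tsum_congr fun m => ?_
  rw [one_div, inv_pow]
  rfl

end

end Pool.Agent.K4H95.ZP
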