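import Pool.Agent.K4H95.ZP.Imp

/-!
# The fourth moment of zeta with a twist: from the Gamma windows to the sharp cut-off
-/

set_option autoImplicit false

namespace Pool.Agent.K4H95.ZP

open Filter Topology MeasureTheory
open Pool.Agent.Y969.SM (Xz w2 S_AS)
open Pool.Agent.Y475.SX
open Pool.Agent.H306R2.SM (om cl)
open Pool.Agent.H262R4.TM (Rng)
open Pool.Agent.W184.NZ (mh mh_cont mh_norm_le)

noncomputable section

lemma G_bd {g : ℝ → ℝ} (hg1 : ∀ t, |g t| ≤ 1) (t : ℝ) (ht : 0 < t) : |Xz t ^ 4 * g t| ≤ 331776 * (1 + t) ^ 8 := by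
  rw [abs_mul]
  have h1 := Xz4_abs t ht
  calc |Xz t ^ 4| * |g t| ≤ |Xz t ^ 4| * 1 := mul_le_mul_of_nonneg_left (hg1 t) (abs_nonneg _)
    _ = |Xz t ^ 4| := mul_one _
    _ ≤ _ := h1

lemma DX_int (κ : ℕ) (hκ : 1 ≤ κ) {ε T : ℝ} (hε : 0 < ε) (hε1 : ε ≤ 1 / 4) (hT : 0 < T) :
    IntegrableOn (fun t => Dd κ ε T t * Xz t ^ 4) (Set.Ioi (0:ℝ)) := by
  have h := P_int (n := 0) κ hκ hε hε1 hT
  simpa using h

/-- for one function -/
lemma pt0 (κ : ℕ) (hκ : 1 ≤ κ) {ε T : ℝ} (hε : 0 < ε) (hε1 : ε ≤ 1 / 4) (hT : 0 < T)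
    {g : ℝ → ℝ} (hg : Continuous g) (hg1 : ∀ t, |g t| ≤ 1) :
    |(∫ t in (0:ℝ)..T, Xz t ^ 4 * g t) -
      ∫ T' in (ε * T)..T, (∫ t in Set.Ioi (0:ℝ), om κ (κ / T') t * (Xz t ^ 4 * g t))| ≤
      ∫ t in Set.Ioi (0:ℝ), Dd κ ε T t * Xz t ^ 4 := by
  have hεT : ε * T ≤ T := by nlinarith
  have hεT0 : 0 < ε * T := by positivity
  set G : ℝ → ℝ := fun t => Xz t ^ 4 * g t with hG
  have hcont : Continuous G := (Xz_cont.pow 4).mul hg
  have hbd : ∀ t, 0 < t → |G t| ≤ 331776 * (1 + t) ^ 8 := fun t ht => G_bd hg1 t ht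
  have i1 := ind_int T G hcont
  have i2 := hhG_int κ hκ hεT0 hεT G _ _ hcont hbd
  have hA : ∫ t in (0:ℝ)..T, Xz t ^ 4 * g t =
      ∫ t in Set.Ioi (0:ℝ), (Set.Ioc 0 T).indicator (fun _ => (1:ℝ)) t * G t := by
    rw [intervalIntegral.integral_of_le hT.le,
      ind_eq measurableSet_Ioc (fun x hx => hx.1)]
  have hB : ∫ T' in (ε * T)..T, (∫ t in Set.Ioi (0:ℝ), om κ (κ / T') t * (Xz t ^ 4 * g t)) =
      ∫ t in Set.Ioi (0:ℝ), hh κ (ε * T) T t * G t := by
    rw [intervalIntegral.integral_of_le hεT, ← om_swap κ hκ hεT0 hεT G _ _ hcont hbd]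
  rw [hA, hB, ← integral_sub i1 i2]
  refine (abs_integral_le_integral_abs).trans ?_
  refine integral_mono_of_nonneg (Eventually.of_forall fun t => abs_nonneg _) (DX_int κ hκ hε hε1 hT)
    (Eventually.of_forall fun t => ?_)
  have h4 : 0 ≤ Xz t ^ 4 := pow_nonneg (Xz_nonneg t) 4
  simp only [Dd, hG]
  rw [← sub_mul, abs_mul, abs_mul, abs_of_nonneg h4]
  have h5 := abs_nonneg ((Set.Ioc 0 T).indicator (fun _ => (1:ℝ)) t - hh κ (ε * T) T t)
  calc _ ≤ |(Set.Ioc 0 T).indicator (fun _ => (1:ℝ)) t - hh κ (ε * T) T t| * (Xz t ^ 4 * 1) := by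
        gcongr
        exact hg1 t
    _ = _ := by rw [mul_one]

lemma Jf_crude {T : ℝ} (hT : 0 < T) : ∀ t, 0 < t → t ≤ 4 * T → Jf T t ≤ T * (576 * (1 + 5 * T) ^ 4) := by
  intro t ht0 ht
  unfold Jf
  have h1 : ∀ u ∈ Set.Icc (0:ℝ) T, Pool.Agent.Y969.GP.ff (t + u) ≤ 576 * (1 + 5 * T) ^ 4 := by
    intro u hu
    refine (ff_bd (by linarith [hu.1])).trans ?_
    have : 1 + (t + u) ≤ 1 + 5 * T := by linarith [hu.2]
    have h0 : 0 ≤ 1 + (t + u) := by linarith [hu.1]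
    gcongr
  calc ∫ u in Set.Icc 0 T, Pool.Agent.Y969.GP.ff (t + u) ≤ ∫ _u in Set.Icc 0 T, 576 * (1 + 5 * T) ^ 4 := by
        refine setIntegral_mono_on ?_ (integrable_const _) measurableSet_Icc h1
        exact (ff_cont.comp (by fun_prop)).continuousOn.integrableOn_compact isCompact_Icc
    _ = _ := by
        rw [setIntegral_const, measureReal_def, Real.volume_Icc, ENNReal.toReal_ofReal (by linarith), smul_eq_mul, sub_zero]

/-- the error of the sharp cut-off -/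
lemma Dbd : ∃ C : ℝ, 0 < C ∧ ∀ ε : ℝ, 0 < ε → ε ≤ 1 / 4 → ∀ᶠ T : ℝ in atTop, ∀ κ : ℕ, Rng T κ →
    ∫ t in Set.Ioi (0:ℝ), Dd κ ε T t * Xz t ^ 4 ≤ C * ε * (T * Real.log T ^ 4) := by
  obtain ⟨C₃, hC₃, hW⟩ := w4
  have hW' : W4H C₃ := hW
  obtain ⟨C₄, hC₄, hM⟩ := M4_bd hC₃ hW'
  refine ⟨3 * C₄ + 128 * C₃ + 1 + 1, by positivity, fun ε hε hε1 => ?_⟩
  have hlog : ∀ x : ℝ, ∀ᶠ T : ℝ in atTop, x ≤ Real.log T := fun x =>
    Real.tendsto_log_atTop.eventually_ge_atTop _
  filter_upwards [near_T hC₃ hW' hε hε1, hlog (22 + 10 * (0:ℕ)), hlog (65 * C₄ / ε ^ 3),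
    eventually_ge_atTop 4, eventually_ge_atTop (8 * Wn 0 / ε ^ 2), eventually_ge_atTop (1 / ε)]
    with T g1 g2 g3 g4 g5 g6
  intro κ hκR
  have hT0 : 0 < T := by linarith
  set L := Real.log T with hLd
  have hL1 : 1 ≤ L := by push_cast at g2; linarith
  have hκL : L ^ 2 ≤ κ := hκR.1
  have hκ1 : (1:ℝ) ≤ κ := by nlinarith
  have hκ1' : 1 ≤ κ := by exact_mod_cast hκ1
  have hκ0 : (0:ℝ) < κ := by linarith
  have hP := P_int (n := 0) κ hκ1' hε hε1 hT0
  have hsplit : ∫ t in Set.Ioi (0:ℝ), Dd κ ε T t * (Xz t ^ 4 * Jf T t ^ 0) =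
      (∫ t in Set.Ioc (0:ℝ) (4 * T), Dd κ ε T t * (Xz t ^ 4 * Jf T t ^ 0)) +
        ∫ t in Set.Ioi (4 * T), Dd κ ε T t * (Xz t ^ 4 * Jf T t ^ 0) := by
    rw [← setIntegral_union (Set.Ioc_disjoint_Ioi le_rfl) measurableSet_Ioi
      (hP.mono_set fun x hx => hx.1) (hP.mono_set (Set.Ioi_subset_Ioi (by positivity))),
      Set.Ioc_union_Ioi_eq_Ioi (by positivity)]
  have e0 : ∫ t in Set.Ioi (0:ℝ), Dd κ ε T t * Xz t ^ 4 =
      ∫ t in Set.Ioi (0:ℝ), Dd κ ε T t * (Xz t ^ 4 * Jf T t ^ 0) := by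
    simp
  rw [e0, hsplit]
  have p1 := part1 (n := 0) κ hκ1' hε hε1 hT0 (Jf_crude hT0)
  have p2 := part2 (n := 0) (T := T) κ hκ1' hε hε1 (by linarith)
  have p3 := tail_small 0 hε (by linarith) g2 g5 κ hκR
  rw [pow_zero, one_mul] at p1
  set X := T * L ^ 4 with hX
  have hL4 : 1 ≤ L ^ 4 := one_le_pow₀ hL1
  have hεT : 1 ≤ ε * T := by
    rw [div_le_iff₀ hε] at g6
    linarith
  have hX1 : 1 ≤ ε * X := by
    rw [hX, ← mul_assoc]
    nlinarith
  have hXpos : 0 < X := by rw [hX]; positivity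
  have q1 : M4 (2 * ε * T) ≤ 3 * C₄ * (ε * X) := by
    have h := hM T (2 * ε * T) (by positivity) (by nlinarith)
    rw [← hLd] at h
    calc M4 (2 * ε * T) ≤ C₄ * (2 * ε * T * L ^ 4 + 1) := h
      _ ≤ C₄ * (2 * ε * T * L ^ 4 + ε * X) := by
          apply mul_le_mul_of_nonneg_left _ hC₄.le
          linarith
      _ = _ := by rw [hX]; ring
  have q2 : M4 (4 * T) ≤ 65 * C₄ * X := by
    have h := hM (4 * T) (4 * T) (by positivity) le_rfl
    have hl : Real.log (4 * T) ≤ 2 * L := by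
      calc Real.log (4 * T) ≤ Real.log (T ^ 2) := Real.log_le_log (by linarith) (by nlinarith)
        _ = 2 * Real.log T := by rw [Real.log_pow]; norm_num
    have hl0 : 0 ≤ Real.log (4 * T) := Real.log_nonneg (by linarith)
    have hl4 : Real.log (4 * T) ^ 4 ≤ (2 * L) ^ 4 := pow_le_pow_left₀ hl0 hl 4
    have hX2 : 1 ≤ X := by rw [hX]; nlinarith
    calc M4 (4 * T) ≤ C₄ * (4 * T * Real.log (4 * T) ^ 4 + 1) := h
      _ ≤ C₄ * (4 * T * (2 * L) ^ 4 + X) := by
          apply mul_le_mul_of_nonneg_left _ hC₄.le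
          have := mul_le_mul_of_nonneg_left hl4 (show 0 ≤ 4 * T by positivity)
          linarith
      _ = _ := by rw [hX]; ring
  have q3 : 1 / (κ * ε ^ 2) * M4 (4 * T) ≤ ε * X := by
    have hLL : 65 * C₄ / ε ^ 3 ≤ κ := by nlinarith
    rw [div_le_iff₀ (by positivity)] at hLL
    calc 1 / (κ * ε ^ 2) * M4 (4 * T) ≤ 1 / (κ * ε ^ 2) * (65 * C₄ * X) :=
          mul_le_mul_of_nonneg_left q2 (by positivity)
      _ = (65 * C₄) / (κ * ε ^ 2) * X := by ring
      _ ≤ ε * X := by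
          apply mul_le_mul_of_nonneg_right _ hXpos.le
          rw [div_le_iff₀ (by positivity)]
          calc 65 * C₄ ≤ κ * ε ^ 3 := hLL
            _ = _ := by ring
  have g1' : ∫ t in Set.Ioc ((1 - ε) * T) ((1 + ε) * T), Xz t ^ 4 ≤ 128 * C₃ * (ε * X) := by
    refine g1.trans (le_of_eq ?_)
    ring
  have q6 : ε ≤ ε * X := by
    have a3 : 1 ≤ X := by rw [hX]; nlinarith
    nlinarith
  have := (p2.trans p3)
  calc _ ≤ (3 * C₄ * (ε * X) + 128 * C₃ * (ε * X) + ε * X) + ε * X := by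
        refine add_le_add (p1.trans ?_) (this.trans q6)
        linarith
    _ = _ := by ring

/-- **from the windows to the sharp cut-off** -/
theorem sharp {g : ℝ → ℝ} (hg : Continuous g) (hg1 : ∀ t, |g t| ≤ 1) {c : ℝ}
    (h : ∀ ε : ℝ, 0 < ε → ∀ᶠ T : ℝ in atTop, ∀ κ : ℕ, Rng T κ →
      |(∫ t in Set.Ioi (0:ℝ), om κ (κ / T) t * (Xz t ^ 4 * g t)) - c * Real.log T ^ 4| ≤ ε * Real.log T ^ 4) :
    Tendsto (fun T : ℝ => (∫ t in (0:ℝ)..T, Xz t ^ 4 * g t) / (T * Real.log T ^ 4)) atTop (𝓝 c) := by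
  obtain ⟨C, hC, hD⟩ := Dbd
  rw [Metric.tendsto_atTop']
  intro δ hδ
  set e : ℝ := min (1 / 4) (δ / (4 * (C + 1 + 2 * |c|))) with hed
  have hden : 0 < 4 * (C + 1 + 2 * |c|) := by positivity
  have he : 0 < e := lt_min (by norm_num) (by positivity)
  have he4 : e ≤ 1 / 4 := min_le_left _ _
  have he' : e * (4 * (C + 1 + 2 * |c|)) ≤ δ := by
    have := min_le_right (1 / 4) (δ / (4 * (C + 1 + 2 * |c|)))
    calc e * (4 * (C + 1 + 2 * |c|)) ≤ δ / (4 * (C + 1 + 2 * |c|)) * (4 * (C + 1 + 2 * |c|)) :=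
          mul_le_mul_of_nonneg_right this hden.le
      _ = δ := by field_simp
  obtain ⟨T1, hT1⟩ := eventually_atTop.mp (h e he)
  have hev : ∀ᶠ T : ℝ in atTop, dist ((∫ t in (0:ℝ)..T, Xz t ^ 4 * g t) / (T * Real.log T ^ 4)) c < δ := by
    filter_upwards [hD e he he4, Pool.Agent.Y969.SM.Rng_ok he (by linarith), Pool.Agent.Y969.SM.K_bd 0 he he4,
      eventually_ge_atTop (T1 / e), eventually_ge_atTop (Real.exp 1 / e), eventually_ge_atTop (1:ℝ)] with
      T hS hR hK hTa hTb hTc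
    have hTp : 0 < T := by linarith
    set κ := ⌈6 / 5 * Real.log T ^ 2⌉₊ with hκd
    have heT : e * T ≤ T := by nlinarith
    have ha : Real.exp 1 ≤ e * T := by
      rw [div_le_iff₀ he] at hTb; linarith
    have he0 : (0:ℝ) < Real.exp 1 := Real.exp_pos 1
    have heT0 : 0 < e * T := he0.trans_le ha
    have hlT : 1 ≤ Real.log T := by
      have := Real.log_le_log he0 (ha.trans heT)
      rwa [Real.log_exp] at this
    have hκ1 : 1 ≤ κ := by
      have h5 := (hR T heT le_rfl).1.1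
      have h6 : (1:ℝ) ≤ κ := le_trans (by nlinarith) h5
      exact_mod_cast h6
    set D := T * Real.log T ^ 4 with hDd
    have hDp : 0 < D := by positivity
    set I := ∫ t in (0:ℝ)..T, Xz t ^ 4 * g t with hI
    set W : ℝ → ℝ := fun T' => ∫ t in Set.Ioi (0:ℝ), om κ (κ / T') t * (Xz t ^ 4 * g t) with hWd
    set J := ∫ T' in (e * T)..T, W T' with hJ
    have h1 : |I - J| ≤ C * e * D := (pt0 κ hκ1 he he4 hTp hg hg1).trans (hS κ (hR T heT le_rfl).1)
    -- the windows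
    have hWi : IntervalIntegrable W volume (e * T) T := by
      rw [intervalIntegrable_iff_integrableOn_Ioc_of_le heT]
      have hj := om_joint κ hκ1 heT0 heT (fun t => Xz t ^ 4 * g t) _ _ ((Xz_cont.pow 4).mul hg)
        (fun t ht => G_bd hg1 t ht)
      exact hj.integral_prod_left
    have hLi : IntervalIntegrable (fun x => c * Real.log x ^ 4) volume (e * T) T := by
      refine ContinuousOn.intervalIntegrable ?_
      rw [Set.uIcc_of_le heT]
      exact continuousOn_const.mul ((Real.continuousOn_log.mono fun x hx => by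
        have : 0 < x := heT0.trans_le hx.1
        simp [this.ne']).pow _)
    have h2 : |J - c * ∫ T' in (e * T)..T, Real.log T' ^ 4| ≤ e * D := by
      have e1 : J - c * ∫ T' in (e * T)..T, Real.log T' ^ 4 =
          ∫ T' in (e * T)..T, (W T' - c * Real.log T' ^ 4) := by
        rw [intervalIntegral.integral_sub hWi hLi, intervalIntegral.integral_const_mul]
      rw [e1]
      have hb : ∀ x ∈ Set.uIoc (e * T) T, ‖W x - c * Real.log x ^ 4‖ ≤ e * Real.log T ^ 4 := by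
        intro x hx
        rw [Set.uIoc_of_le heT] at hx
        have hx0 : 0 < x := heT0.trans hx.1
        have r := hT1 x (by
          rw [div_le_iff₀ he] at hTa
          linarith [hx.1]) κ (hR x hx.1.le hx.2).1
        refine r.trans ?_
        have hlx : 0 ≤ Real.log x := Real.log_nonneg (by
          have := Real.add_one_le_exp (1:ℝ)
          linarith [hx.1])
        have := Real.log_le_log hx0 hx.2
        gcongr
      have := intervalIntegral.norm_integral_le_of_norm_le_const hb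
      rw [Real.norm_eq_abs, abs_of_nonneg (by linarith : (0:ℝ) ≤ T - e * T)] at this
      refine this.trans ?_
      have h5 : 0 ≤ e * Real.log T ^ 4 := by positivity
      calc e * Real.log T ^ 4 * (T - e * T) ≤ e * Real.log T ^ 4 * T := by
            apply mul_le_mul_of_nonneg_left _ h5
            linarith
        _ = e * D := by rw [hDd]; ring
    have h3 : |c * (∫ T' in (e * T)..T, Real.log T' ^ 4) - c * D| ≤ |c| * (2 * e) * D := by
      rw [← mul_sub, abs_mul, mul_assoc]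
      refine mul_le_mul_of_nonneg_left ?_ (abs_nonneg c)
      have hK' : |(∫ T' in (e * T)..T, Real.log T' ^ 4) / D - 1| ≤ 2 * e := by
        simpa using hK
      have e2 : (∫ T' in (e * T)..T, Real.log T' ^ 4) - D =
          ((∫ T' in (e * T)..T, Real.log T' ^ 4) / D - 1) * D := by
        field_simp
      rw [e2, abs_mul, abs_of_pos hDp]
      exact mul_le_mul_of_nonneg_right hK' hDp.le
    have h4 : |I - c * D| ≤ (C * e + e + |c| * (2 * e)) * D := by
      have e3 : I - c * D = (I - J) + (J - c * ∫ T' in (e * T)..T, Real.log T' ^ 4) +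
          (c * (∫ T' in (e * T)..T, Real.log T' ^ 4) - c * D) := by ring
      rw [e3]
      refine (abs_add_le _ _).trans ?_
      refine (add_le_add (abs_add_le _ _) le_rfl).trans ?_
      linarith
    rw [Real.dist_eq]
    have e4 : I / D - c = (I - c * D) / D := by field_simp
    rw [e4, abs_div, abs_of_pos hDp, div_lt_iff₀ hDp]
    refine h4.trans_lt ?_
    refine mul_lt_mul_of_pos_right ?_ hDp
    have : C * e + e + |c| * (2 * e) = e * (4 * (C + 1 + 2 * |c|)) / 4 := by ring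
    rw [this]
    linarith
  obtain ⟨N, hN⟩ := eventually_atTop.mp hev
  exact ⟨N, fun n hn => hN n hn.le⟩

/-- the twisted fourth moment, sharp cut-off -/
theorem twist (x : ℕ × ℕ) (h1 : x.1 ≠ 0) (h2 : x.2 ≠ 0) :
    Tendsto (fun T : ℝ => (∫ t in (0:ℝ)..T, ((Xz t ^ 4 : ℝ) : ℂ) * mh t x) / ((T * Real.log T ^ 4 : ℝ) : ℂ)) atTop
      (𝓝 ((w2 x / (2 * Real.pi ^ 2) : ℝ) : ℂ)) := by
  have hc := mh_cont h1 h2
  have hn : ∀ t, ‖mh t x‖ ≤ 1 := fun t => mh_norm_le h1 h2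
  have hIn : ∀ κ : ℕ, ∀ T : ℝ, 0 < T → 1 ≤ κ →
      IntegrableOn (fun t => ((om κ (κ / T) t * Xz t ^ 4 : ℝ) : ℂ) * mh t x) (Set.Ioi 0) := by
    intro κ T hT hκ
    have hκ0 : (0:ℝ) < κ := by exact_mod_cast hκ
    refine Integrable.mono' ((om_poly κ 8 (δ := κ / T) (by positivity)).const_mul 331776) ?_ ?_
    · exact ((Complex.continuous_ofReal.comp ((om_cont κ _).mul (Xz_cont.pow 4))).mul hc).aestronglyMeasurable
    · filter_upwards [ae_restrict_mem measurableSet_Ioi] with t ht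
      have ht0 : (0:ℝ) < t := ht
      have h3 := om_nonneg κ (δ := κ / T) (by positivity) ht0.le
      have h4 := Xz4_bd ht0.le
      have h5 : 0 ≤ om κ (κ / T) t * Xz t ^ 4 := mul_nonneg h3 (pow_nonneg (Xz_nonneg t) 4)
      rw [norm_mul, Complex.norm_real, Real.norm_of_nonneg h5]
      calc om κ (κ / T) t * Xz t ^ 4 * ‖mh t x‖ ≤ om κ (κ / T) t * Xz t ^ 4 * 1 :=
            mul_le_mul_of_nonneg_left (hn t) h5
        _ = om κ (κ / T) t * Xz t ^ 4 := mul_one _
        _ ≤ om κ (κ / T) t * (331776 * (1 + t) ^ 8) := mul_le_mul_of_nonneg_left h4 h3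
        _ = _ := by ring
  have key : ∀ (F : ℂ →L[ℝ] ℝ), (∀ z, |F z| ≤ ‖z‖) → ∀ c : ℝ, c = F ((w2 x / (2 * Real.pi ^ 2) : ℝ) : ℂ) →
      Tendsto (fun T : ℝ => (∫ t in (0:ℝ)..T, Xz t ^ 4 * F (mh t x)) / (T * Real.log T ^ 4)) atTop (𝓝 c) := by
    intro F hF c hc'
    refine sharp (g := fun t => F (mh t x)) (F.continuous.comp hc) (fun t => (hF _).trans (hn t)) fun ε hε => ?_
    filter_upwards [as x h1 h2 ε hε, eventually_ge_atTop (Real.exp 1)] with T hT hT1 κ hκ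
    have h3 := hT κ hκ
    have he0 : (0:ℝ) < Real.exp 1 := Real.exp_pos 1
    have hT0 : 0 < T := he0.trans_le hT1
    have hL : 1 ≤ Real.log T := by
      have := Real.log_le_log he0 hT1
      rwa [Real.log_exp] at this
    have hκ1 : 1 ≤ κ := by
      have h5 : Real.log T ^ 2 ≤ κ := hκ.1
      have h6 : (1:ℝ) ≤ κ := le_trans (by nlinarith) h5
      exact_mod_cast h6
    have e1 : F (∫ t in Set.Ioi (0:ℝ), ((om κ (κ / T) t * Xz t ^ 4 : ℝ) : ℂ) * mh t x) =
        ∫ t in Set.Ioi (0:ℝ), om κ (κ / T) t * (Xz t ^ 4 * F (mh t x)) := by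
      rw [← F.integral_comp_comm (hIn κ T hT0 hκ1)]
      refine integral_congr_ae (Eventually.of_forall fun t => ?_)
      simp only
      rw [← Complex.real_smul, map_smul, smul_eq_mul, mul_assoc]
    have e2 : F ((w2 x / (2 * Real.pi ^ 2) * Real.log T ^ 4 : ℝ) : ℂ) = c * Real.log T ^ 4 := by
      have e3 : (((w2 x / (2 * Real.pi ^ 2) * Real.log T ^ 4 : ℝ)) : ℂ) =
          (Real.log T ^ 4 : ℝ) • ((w2 x / (2 * Real.pi ^ 2) : ℝ) : ℂ) := by
        rw [Complex.real_smul]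
        push_cast
        ring
      rw [e3, map_smul, smul_eq_mul, mul_comm, hc']
    rw [← e1, ← e2, ← map_sub]
    exact (hF _).trans h3
  have hre := key Complex.reCLM (fun z => Complex.abs_re_le_norm z) (w2 x / (2 * Real.pi ^ 2)) (by
    rw [Complex.reCLM_apply, Complex.ofReal_re])
  have him := key Complex.imCLM (fun z => Complex.abs_im_le_norm z) 0 (by
    rw [Complex.imCLM_apply, Complex.ofReal_im])
  have h3 := ((Complex.continuous_ofReal.tendsto _).comp hre).add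
    (((Complex.continuous_ofReal.tendsto _).comp him).mul_const Complex.I)
  have h4 : (((w2 x / (2 * Real.pi ^ 2) : ℝ)) : ℂ) + ((0:ℝ):ℂ) * Complex.I = ((w2 x / (2 * Real.pi ^ 2) : ℝ) : ℂ) := by
    simp
  rw [h4] at h3
  refine h3.congr fun T => ?_
  simp only [Function.comp]
  have hX4 : Continuous fun t => ((Xz t ^ 4 : ℝ) : ℂ) := Complex.continuous_ofReal.comp (Xz_cont.pow 4)
  have hI : IntervalIntegrable (fun t => ((Xz t ^ 4 : ℝ) : ℂ) * mh t x) volume 0 T :=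
    (hX4.mul hc).intervalIntegrable _ _
  have er : (∫ t in (0:ℝ)..T, ((Xz t ^ 4 : ℝ) : ℂ) * mh t x).re = ∫ t in (0:ℝ)..T, Xz t ^ 4 * Complex.reCLM (mh t x) := by
    have h := Complex.reCLM.intervalIntegral_comp_comm hI
    rw [Complex.reCLM_apply] at h
    rw [← h]
    refine intervalIntegral.integral_congr fun t _ => ?_
    simp only [Complex.reCLM_apply, Complex.re_ofReal_mul]
  have ei : (∫ t in (0:ℝ)..T, ((Xz t ^ 4 : ℝ) : ℂ) * mh t x).im = ∫ t in (0:ℝ)..T, Xz t ^ 4 * Complex.imCLM (mh t x) := by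
    have h := Complex.imCLM.intervalIntegral_comp_comm hI
    rw [Complex.imCLM_apply] at h
    rw [← h]
    refine intervalIntegral.integral_congr fun t _ => ?_
    simp only [Complex.imCLM_apply, Complex.im_ofReal_mul]
  rw [← er, ← ei]
  conv_rhs => rw [← Complex.re_add_im (∫ t in (0:ℝ)..T, ((Xz t ^ 4 : ℝ) : ℂ) * mh t x)]
  push_cast
  ring

end

end Pool.Agent.K4H95.ZP
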