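import Pool.Agent.X278.AV.Uni
import Pool.Agent.X278.AV.MomQ
import Pool.Agent.Y852.SX.Loc

/-!
# The local means `∫ ‖1 - p^{-1/2} e(θ)‖^{-2s} dθ`
-/

set_option autoImplicit false

namespace Pool.Agent.K4H95.ZP

open Filter Topology MeasureTheory
open Pool.Agent.TH806 (ec uu ec_cont ec_norm integrable_uu ec_add ec_zero int_ec ec_conj ec_nat uu_int)
open Pool.Agent.Y852.SX (qd Bq npos n_cont qd_eq)
open Pool.Agent.X278.AV (exp_rem log_step)

noncomputable section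

/-- `‖1 - r e(θ)‖` -/
def Nr (r θ : ℝ) : ℝ := ‖1 - (r : ℂ) * ec θ‖

lemma Nr_cont (r : ℝ) : Continuous (Nr r) := n_cont r

lemma Nr_pos {r : ℝ} (h0 : 0 ≤ r) (h1 : r < 1) (θ : ℝ) : 0 < Nr r θ := by
  have := npos h0 h1 θ
  unfold Nr
  linarith

/-- the local mean -/
def LM (r s : ℝ) : ℝ := ∫ θ, Nr r θ ^ (-(2 * s)) ∂uu

/-- the logarithm -/
def Yr (r θ : ℝ) : ℝ := -(2 * Real.log (Nr r θ))

lemma Nr_rpow {r : ℝ} (h0 : 0 ≤ r) (h1 : r < 1) (s θ : ℝ) : Nr r θ ^ (-(2 * s)) = Real.exp (s * Yr r θ) := by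
  rw [Real.rpow_def_of_pos (Nr_pos h0 h1 θ)]
  unfold Yr
  congr 1
  ring

lemma Yr_cont {r : ℝ} (h0 : 0 ≤ r) (h1 : r < 1) : Continuous (Yr r) := by
  unfold Yr
  exact (continuous_const.mul ((Nr_cont r).log fun θ => (Nr_pos h0 h1 θ).ne')).neg

lemma uu_intR {f : ℝ → ℝ} (hf : Continuous f) {B : ℝ} (hB : ∀ x, |f x| ≤ B) : Integrable f uu :=
  Integrable.of_bound hf.aestronglyMeasurable B (Filter.Eventually.of_forall hB)

lemma uu_one (c : ℝ) : ∫ _θ, c ∂uu = c := by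
  rw [integral_const]
  simp

lemma Yr_bd {r : ℝ} (h0 : 0 ≤ r) (h1 : r ≤ 3 / 4) (θ : ℝ) : |Yr r θ| ≤ 8 * r := by
  have h2 := Pool.Agent.X278.AV.log_bd (z := (r : ℂ) * ec θ) (by
    rw [norm_mul, ec_norm, mul_one, Complex.norm_real, Real.norm_of_nonneg h0]
    exact h1)
  rw [norm_mul, ec_norm, mul_one, Complex.norm_real, Real.norm_of_nonneg h0] at h2
  unfold Yr Nr
  rw [abs_neg, abs_mul, abs_of_pos (by norm_num : (0:ℝ) < 2)]
  linarith

lemma LM_pos {r : ℝ} (h0 : 0 ≤ r) (h1 : r ≤ 3 / 4) (s : ℝ) : Real.exp (-(8 * |s|)) ≤ LM r s := by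
  have h1' : r < 1 := by linarith
  have e1 : LM r s = ∫ θ, Real.exp (s * Yr r θ) ∂uu := by
    unfold LM
    exact integral_congr_ae (Eventually.of_forall fun θ => Nr_rpow h0 h1' s θ)
  have hb : ∀ θ, |s * Yr r θ| ≤ 8 * |s| := by
    intro θ
    rw [abs_mul]
    have := Yr_bd h0 h1 θ
    have h3 : |Yr r θ| ≤ 8 := by linarith
    nlinarith [abs_nonneg s]
  rw [e1, ← uu_one (Real.exp (-(8 * |s|)))]
  refine integral_mono (integrable_const _) (uu_intR (B := Real.exp (8 * |s|)) ?_ ?_) ?_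
  · have := Yr_cont h0 h1'
    fun_prop
  · intro θ
    rw [abs_of_pos (Real.exp_pos _)]
    exact Real.exp_le_exp.2 ((le_abs_self _).trans (hb θ))
  · intro θ
    exact Real.exp_le_exp.2 (by linarith [(abs_le.1 (hb θ)).1])

lemma LM_pos' {r : ℝ} (h0 : 0 ≤ r) (h1 : r ≤ 3 / 4) (s : ℝ) : 0 < LM r s :=
  (Real.exp_pos _).trans_le (LM_pos h0 h1 s)

/-- a crude bound for the ratios -/
lemma LM_ratio {r : ℝ} (h0 : 0 ≤ r) (h1 : r ≤ 3 / 4) (s x : ℝ) : |Real.log (LM r (s + x) / LM r s)| ≤ 8 * r * |x| := by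
  have h1' : r < 1 := by linarith
  have e1 : ∀ y, LM r y = ∫ θ, Real.exp (y * Yr r θ) ∂uu := fun y => by
    unfold LM
    exact integral_congr_ae (Eventually.of_forall fun θ => Nr_rpow h0 h1' y θ)
  have hYc := Yr_cont h0 h1'
  have hYb := Yr_bd h0 h1
  have hb : ∀ θ, |x * Yr r θ| ≤ 8 * r * |x| := fun θ => by
    rw [abs_mul]
    calc |x| * |Yr r θ| ≤ |x| * (8 * r) := mul_le_mul_of_nonneg_left (hYb θ) (abs_nonneg _)
      _ = _ := by ring
  have hi : ∀ y : ℝ, Integrable (fun θ => Real.exp (y * Yr r θ)) uu := fun y =>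
    uu_intR (B := Real.exp (8 * |y|)) (by fun_prop) fun θ => by
      rw [abs_of_pos (Real.exp_pos _)]
      apply Real.exp_le_exp.2
      refine (le_abs_self _).trans ?_
      rw [abs_mul]
      have := hYb θ
      have h3 : |Yr r θ| ≤ 8 := by linarith
      nlinarith [abs_nonneg y]
  have hp := LM_pos' h0 h1 s
  have hp2 := LM_pos' h0 h1 (s + x)
  have up : LM r (s + x) ≤ Real.exp (8 * r * |x|) * LM r s := by
    rw [e1, e1, ← integral_const_mul]
    refine integral_mono (hi _) ((hi s).const_mul _) fun θ => ?_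
    simp only
    rw [← Real.exp_add]
    apply Real.exp_le_exp.2
    have h4 := (abs_le.1 (hb θ)).2
    have h5 : (s + x) * Yr r θ = s * Yr r θ + x * Yr r θ := by ring
    linarith
  have lo : Real.exp (-(8 * r * |x|)) * LM r s ≤ LM r (s + x) := by
    rw [e1, e1, ← integral_const_mul]
    refine integral_mono ((hi s).const_mul _) (hi _) fun θ => ?_
    simp only
    rw [← Real.exp_add]
    apply Real.exp_le_exp.2
    have h4 := (abs_le.1 (hb θ)).1
    have h5 : (s + x) * Yr r θ = s * Yr r θ + x * Yr r θ := by ring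
    linarith
  rw [abs_le]
  constructor
  · rw [Real.le_log_iff_exp_le (div_pos hp2 hp), le_div_iff₀ hp]
    exact lo
  · rw [Real.log_le_iff_le_exp (div_pos hp2 hp), div_le_iff₀ hp]
    exact up

lemma LM_cont {r : ℝ} (h0 : 0 ≤ r) (h1 : r ≤ 3 / 4) : Continuous (LM r) := by
  have h1' : r < 1 := by linarith
  have e1 : LM r = fun s => ∫ θ in (0:ℝ)..1, Nr r θ ^ (-(2 * s)) := by
    funext s
    unfold LM uu
    rw [intervalIntegral.integral_of_le zero_le_one]
  rw [e1]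
  refine intervalIntegral.continuous_parametric_intervalIntegral_of_continuous' ?_ _ _
  have h2 : Continuous fun z : ℝ × ℝ => Nr r z.2 := (Nr_cont r).comp continuous_snd
  exact Continuous.rpow h2 (by fun_prop) fun z => Or.inl (Nr_pos h0 h1' z.2).ne'

/-! ### the expansion -/

lemma log2_bd {z : ℂ} (hz : ‖z‖ ≤ 3 / 4) : |Real.log ‖1 - z‖ + z.re + (z ^ 2).re / 2| ≤ 2 * ‖z‖ ^ 3 := by
  have h0 := norm_nonneg z
  have h1 := Complex.norm_log_sub_logTaylor_le 2 (z := -z) (by rw [norm_neg]; linarith)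
  rw [norm_neg, ← sub_eq_add_neg] at h1
  have e1 : Complex.logTaylor (2 + 1) (-z) = -z - z ^ 2 / 2 := by
    rw [Complex.logTaylor]
    simp only [Finset.sum_range_succ, Finset.sum_range_zero]
    push_cast
    ring
  rw [e1] at h1
  have e2 : Real.log ‖1 - z‖ + z.re + (z ^ 2).re / 2 = (Complex.log (1 - z) - (-z - z ^ 2 / 2)).re := by
    have e3 : (z ^ 2 / 2).re = (z ^ 2).re / 2 := by
      rw [Complex.div_ofNat_re]
    rw [Complex.sub_re, Complex.log_re, Complex.sub_re, Complex.neg_re, e3]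
    ring
  rw [e2]
  refine (Complex.abs_re_le_norm _).trans (h1.trans ?_)
  have h3 : (1 - ‖z‖)⁻¹ ≤ 4 := by
    rw [inv_le_comm₀ (by linarith) (by norm_num)]
    linarith
  have h4 : 0 ≤ ‖z‖ ^ 3 := by positivity
  have h5 : ‖z‖ ^ (2 + 1) * (1 - ‖z‖)⁻¹ / ((2:ℕ) + 1) ≤ ‖z‖ ^ 3 * 4 / 3 := by
    have e4 : ((2:ℕ) + 1 : ℝ) = 3 := by norm_num
    rw [e4]
    gcongr
  refine h5.trans ?_
  linarith

lemma Yr_exp {r : ℝ} (h0 : 0 ≤ r) (h1 : r ≤ 3 / 4) (θ : ℝ) :
    |Yr r θ - (2 * r * (ec θ).re + r ^ 2 * (ec (2 * θ)).re)| ≤ 4 * r ^ 3 := by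
  have h2 := log2_bd (z := (r : ℂ) * ec θ) (by
    rw [norm_mul, ec_norm, mul_one, Complex.norm_real, Real.norm_of_nonneg h0]
    exact h1)
  rw [norm_mul, ec_norm, mul_one, Complex.norm_real, Real.norm_of_nonneg h0] at h2
  have e1 : ((r : ℂ) * ec θ).re = r * (ec θ).re := Complex.re_ofReal_mul _ _
  have e2 : (((r : ℂ) * ec θ) ^ 2).re = r ^ 2 * (ec (2 * θ)).re := by
    rw [mul_pow, ← ec_nat, ← Complex.ofReal_pow, Complex.re_ofReal_mul]
    push_cast
    rfl
  rw [e1, e2] at h2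
  have e3 : Yr r θ - (2 * r * (ec θ).re + r ^ 2 * (ec (2 * θ)).re) =
      -(2 * (Real.log ‖1 - (r : ℂ) * ec θ‖ + r * (ec θ).re + r ^ 2 * (ec (2 * θ)).re / 2)) := by
    unfold Yr Nr
    ring
  rw [e3, abs_neg, abs_mul, abs_of_pos (by norm_num : (0:ℝ) < 2)]
  linarith

lemma re_ec_cont (k : ℝ) : Continuous fun θ : ℝ => (ec (k * θ)).re :=
  Complex.continuous_re.comp (ec_cont.comp (by fun_prop))

lemma re_ec_bd (θ : ℝ) : |(ec θ).re| ≤ 1 := (Complex.abs_re_le_norm _).trans (le_of_eq (ec_norm θ))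

lemma int_re_ec {k : ℤ} (hk : k ≠ 0) : ∫ θ, (ec (k * θ)).re ∂uu = 0 := by
  have h := int_ec k
  rw [if_neg hk] at h
  have hi : Integrable (fun θ => ec (k * θ)) uu := integrable_uu (B := 1) (by have := ec_cont; fun_prop) fun x => by rw [ec_norm]
  have h2 := integral_re hi
  simp only [RCLike.re_to_complex] at h2
  rw [h2, h]
  rfl

lemma re_sq (θ : ℝ) : (ec θ).re ^ 2 = 1 / 2 + (ec (2 * θ)).re / 2 := by
  have h1 := ec_norm θ
  have h2 : (ec θ).re ^ 2 + (ec θ).im ^ 2 = 1 := by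
    have h3 := Complex.sq_norm (ec θ)
    rw [h1, Complex.normSq_apply] at h3
    nlinarith
  have h4 : (ec (2 * θ)).re = (ec θ).re ^ 2 - (ec θ).im ^ 2 := by
    have h5 := ec_nat 2 θ
    push_cast at h5
    rw [h5, pow_two, Complex.mul_re]
    ring
  rw [h4]
  linarith

/-- **the local expansion** -/
theorem LM_exp {S : ℝ} (hS : 0 ≤ S) : ∃ C : ℝ, 0 ≤ C ∧ ∀ r : ℝ, 0 ≤ r → r ≤ 3 / 4 → ∀ s : ℝ, |s| ≤ S →
    |Real.log (LM r s) - s ^ 2 * r ^ 2| ≤ C * r ^ 3 := by
  set A : ℝ := 4 * S + 50 * S ^ 2 + 512 * S ^ 3 * Real.exp (8 * S) with hA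
  refine ⟨A + (A + S ^ 2) ^ 2 / Real.exp (-(8 * S)), by positivity, fun r h0 h1 s hs => ?_⟩
  have h1' : r < 1 := by linarith
  have hYc := Yr_cont h0 h1'
  have hYb := Yr_bd h0 h1
  have hr3 : 0 ≤ r ^ 3 := by positivity
  have hr32 : r ^ 3 ≤ r ^ 2 := pow_le_pow_of_le_one h0 h1'.le (by norm_num)
  have hiY : Integrable (Yr r) uu := uu_intR (B := 8) hYc fun θ => (hYb θ).trans (by linarith)
  have hiY2 : Integrable (fun θ => Yr r θ ^ 2) uu := uu_intR (B := 64) (hYc.pow 2) fun θ => by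
    rw [abs_pow]
    have := hYb θ
    have h2 : |Yr r θ| ≤ 8 := this.trans (by linarith)
    nlinarith [abs_nonneg (Yr r θ)]
  have hc1 := re_ec_cont 1
  simp only [one_mul] at hc1
  have hc2 := re_ec_cont 2
  have hi1 : Integrable (fun θ => (ec θ).re) uu := uu_intR (B := 1) hc1 fun θ => re_ec_bd θ
  have hi2 : Integrable (fun θ => (ec (2 * θ)).re) uu := uu_intR (B := 1) hc2 fun θ => re_ec_bd _
  have z1 : ∫ θ, (ec θ).re ∂uu = 0 := by
    have := int_re_ec (k := 1) one_ne_zero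
    simpa using this
  have z2 : ∫ θ, (ec (2 * θ)).re ∂uu = 0 := by
    have := int_re_ec (k := 2) two_ne_zero
    simpa using this
  -- first moment
  have m1 : |∫ θ, Yr r θ ∂uu| ≤ 4 * r ^ 3 := by
    have iA : Integrable (fun θ => 2 * r * (ec θ).re + r ^ 2 * (ec (2 * θ)).re) uu :=
      (hi1.const_mul _).add (hi2.const_mul _)
    have e1 : ∫ θ, Yr r θ ∂uu = ∫ θ, (Yr r θ - (2 * r * (ec θ).re + r ^ 2 * (ec (2 * θ)).re)) ∂uu := by
      rw [integral_sub hiY iA, integral_add (hi1.const_mul _) (hi2.const_mul _),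
        integral_const_mul, integral_const_mul, z1, z2]
      ring
    rw [e1]
    have := norm_integral_le_of_norm_le_const (μ := uu) (C := 4 * r ^ 3)
      (f := fun θ => Yr r θ - (2 * r * (ec θ).re + r ^ 2 * (ec (2 * θ)).re))
      (Eventually.of_forall fun θ => Yr_exp h0 h1 θ)
    simpa using this
  -- second moment
  have m2 : |∫ θ, Yr r θ ^ 2 ∂uu - 2 * r ^ 2| ≤ 100 * r ^ 3 := by
    have e1 : ∫ θ, Yr r θ ^ 2 ∂uu - 2 * r ^ 2 = ∫ θ, (Yr r θ ^ 2 - (2 * r * (ec θ).re) ^ 2) ∂uu := by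
      have e2 : ∀ θ, (2 * r * (ec θ).re) ^ 2 = 2 * r ^ 2 + 2 * r ^ 2 * (ec (2 * θ)).re := by
        intro θ
        rw [mul_pow, re_sq]
        ring
      have iA : Integrable (fun θ => 2 * r ^ 2 + 2 * r ^ 2 * (ec (2 * θ)).re) uu :=
        (integrable_const _).add (hi2.const_mul _)
      simp only [e2]
      rw [integral_sub hiY2 iA, integral_add (integrable_const _) (hi2.const_mul _),
        uu_one, integral_const_mul, z2]
      ring
    rw [e1]
    have := norm_integral_le_of_norm_le_const (μ := uu) (C := 100 * r ^ 3)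
      (f := fun θ => Yr r θ ^ 2 - (2 * r * (ec θ).re) ^ 2)
      (Eventually.of_forall fun θ => by
        rw [Real.norm_eq_abs]
        have k1 := Yr_exp h0 h1 θ
        have k2 : |Yr r θ - 2 * r * (ec θ).re| ≤ 5 * r ^ 2 := by
          have e3 : Yr r θ - 2 * r * (ec θ).re = (Yr r θ - (2 * r * (ec θ).re + r ^ 2 * (ec (2 * θ)).re)) +
              r ^ 2 * (ec (2 * θ)).re := by ring
          rw [e3]
          refine (abs_add_le _ _).trans ?_
          have k3 : |r ^ 2 * (ec (2 * θ)).re| ≤ r ^ 2 := by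
            rw [abs_mul, abs_of_nonneg (by positivity : (0:ℝ) ≤ r ^ 2)]
            have := re_ec_bd (2 * θ)
            nlinarith [sq_nonneg r]
          linarith
        have k4 : |Yr r θ + 2 * r * (ec θ).re| ≤ 10 * r := by
          refine (abs_add_le _ _).trans ?_
          have k5 : |2 * r * (ec θ).re| ≤ 2 * r := by
            rw [abs_mul, abs_of_nonneg (by positivity : (0:ℝ) ≤ 2 * r)]
            have := re_ec_bd θ
            nlinarith
          linarith [hYb θ]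
        have e4 : Yr r θ ^ 2 - (2 * r * (ec θ).re) ^ 2 = (Yr r θ - 2 * r * (ec θ).re) * (Yr r θ + 2 * r * (ec θ).re) := by ring
        rw [e4, abs_mul]
        calc _ ≤ (5 * r ^ 2) * (10 * r) := mul_le_mul k2 k4 (abs_nonneg _) (by positivity)
          _ ≤ 100 * r ^ 3 := by nlinarith)
    simpa using this
  -- the exponential
  have hiE : Integrable (fun θ => Real.exp (s * Yr r θ)) uu := uu_intR (B := Real.exp (8 * S)) (by fun_prop) fun θ => by
    rw [abs_of_pos (Real.exp_pos _)]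
    apply Real.exp_le_exp.2
    refine (le_abs_self _).trans ?_
    rw [abs_mul]
    have := hYb θ
    calc |s| * |Yr r θ| ≤ S * 8 := mul_le_mul hs (this.trans (by linarith)) (abs_nonneg _) hS
      _ = _ := by ring
  set y : ℝ := LM r s - 1 with hy
  have hLM : LM r s = ∫ θ, Real.exp (s * Yr r θ) ∂uu := by
    unfold LM
    exact integral_congr_ae (Eventually.of_forall fun θ => Nr_rpow h0 h1' s θ)
  have hrem : |∫ θ, (Real.exp (s * Yr r θ) - 1 - s * Yr r θ - (s * Yr r θ) ^ 2 / 2) ∂uu| ≤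
      512 * S ^ 3 * Real.exp (8 * S) * r ^ 3 := by
    have := norm_integral_le_of_norm_le_const (μ := uu) (C := 512 * S ^ 3 * Real.exp (8 * S) * r ^ 3)
      (f := fun θ => Real.exp (s * Yr r θ) - 1 - s * Yr r θ - (s * Yr r θ) ^ 2 / 2)
      (Eventually.of_forall fun θ => by
        rw [Real.norm_eq_abs]
        have k1 : |s * Yr r θ| ≤ S * (8 * r) := by
          rw [abs_mul]
          exact mul_le_mul hs (hYb θ) (abs_nonneg _) hS
        have k2 : |s * Yr r θ| ≤ 8 * S := k1.trans (by nlinarith)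
        refine (exp_rem _).trans ?_
        calc |s * Yr r θ| ^ 3 * Real.exp |s * Yr r θ| ≤ (S * (8 * r)) ^ 3 * Real.exp (8 * S) := by
              gcongr
          _ = _ := by ring)
    simpa using this
  have hdec : y - s ^ 2 * r ^ 2 = (∫ θ, (Real.exp (s * Yr r θ) - 1 - s * Yr r θ - (s * Yr r θ) ^ 2 / 2) ∂uu) +
      s * (∫ θ, Yr r θ ∂uu) + s ^ 2 / 2 * (∫ θ, Yr r θ ^ 2 ∂uu - 2 * r ^ 2) := by
    have e1 : ∫ θ, (Real.exp (s * Yr r θ) - 1 - s * Yr r θ - (s * Yr r θ) ^ 2 / 2) ∂uu =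
        LM r s - 1 - s * (∫ θ, Yr r θ ∂uu) - s ^ 2 / 2 * ∫ θ, Yr r θ ^ 2 ∂uu := by
      have e2 : ∀ θ, (s * Yr r θ) ^ 2 / 2 = s ^ 2 / 2 * Yr r θ ^ 2 := fun θ => by ring
      have i1 : Integrable (fun θ => Real.exp (s * Yr r θ) - 1) uu := hiE.sub (integrable_const _)
      have i2 : Integrable (fun θ => Real.exp (s * Yr r θ) - 1 - s * Yr r θ) uu := i1.sub (hiY.const_mul _)
      simp only [e2]
      rw [integral_sub i2 (hiY2.const_mul _), integral_sub i1 (hiY.const_mul _), integral_sub hiE (integrable_const _),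
        integral_const_mul, integral_const_mul, uu_one, hLM]
    rw [e1, hy]
    ring
  have hmain : |y - s ^ 2 * r ^ 2| ≤ A * r ^ 3 := by
    rw [hdec]
    have k1 : |s * ∫ θ, Yr r θ ∂uu| ≤ S * (4 * r ^ 3) := by
      rw [abs_mul]
      exact mul_le_mul hs m1 (abs_nonneg _) hS
    have k2 : |s ^ 2 / 2 * (∫ θ, Yr r θ ^ 2 ∂uu - 2 * r ^ 2)| ≤ S ^ 2 / 2 * (100 * r ^ 3) := by
      rw [abs_mul]
      refine mul_le_mul ?_ m2 (abs_nonneg _) (by positivity)
      rw [abs_of_nonneg (by positivity), ← sq_abs]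
      gcongr
    refine (abs_add_le _ _).trans ((add_le_add ((abs_add_le _ _).trans (add_le_add hrem k1)) k2).trans ?_)
    rw [hA]
    apply le_of_eq
    ring
  have hfin := log_step (y := y) (a := s ^ 2 * r ^ 2) (δ := r) (C := A) (D := S ^ 2) (L := Real.exp (-(8 * S))) h0 h1'.le
    (Real.exp_pos _) (by
      rw [hy]
      have := LM_pos h0 h1 s
      have h2 : Real.exp (-(8 * S)) ≤ Real.exp (-(8 * |s|)) := Real.exp_le_exp.2 (by linarith)
      linarith) (by positivity) (by positivity) hmain (by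
      rw [abs_of_nonneg (by positivity)]
      have : s ^ 2 ≤ S ^ 2 := by
        rw [← sq_abs]
        gcongr
      gcongr)
  have e1 : 1 + y = LM r s := by rw [hy]; ring
  rw [e1] at hfin
  exact hfin

/-- the fourth power -/
lemma LM_two {r : ℝ} (h0 : 0 ≤ r) (h1 : r < 1) : LM r 2 = Bq r 0 := by
  have h2 := Pool.Agent.Y852.SX.Aq_eq h0 h1 0
  unfold Pool.Agent.Y852.SX.Aq at h2
  have e1 : ∀ θ, ec (((0:ℤ):ℝ) * θ) * ((qd r θ : ℝ) : ℂ) = ((qd r θ : ℝ) : ℂ) := fun θ => by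
    rw [Int.cast_zero, zero_mul, ec_zero, one_mul]
  simp only [e1] at h2
  rw [integral_complex_ofReal] at h2
  have h3 : ∫ θ, qd r θ ∂uu = Bq r 0 := by exact_mod_cast h2
  rw [← h3]
  unfold LM
  refine integral_congr_ae (Eventually.of_forall fun θ => ?_)
  simp only
  have hp := Nr_pos h0 h1 θ
  rw [qd_eq, Real.rpow_neg hp.le]
  have e2 : Nr r θ ^ ((2:ℝ) * 2) = Nr r θ ^ 4 := by
    rw [show (2:ℝ) * 2 = ((4:ℕ):ℝ) by norm_num, Real.rpow_natCast]
  rw [e2]
  unfold Nr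
  rw [inv_pow, ← pow_mul]

/-- positive integers: Parseval -/
theorem LM_nat {r : ℝ} (h0 : 0 ≤ r) (h1 : r < 1) (k : ℕ) :
    LM r ((k + 1 : ℕ) : ℝ) = ∑' m : ℕ, (((m + k).choose k : ℕ) : ℝ) ^ 2 * (r ^ 2) ^ m := by
  set b : ℕ → ℝ := fun m => ((m + k).choose k : ℕ) * r ^ m with hb
  have hb0 : ∀ m, 0 ≤ b m := fun m => by rw [hb]; positivity
  have hbs : Summable b := by
    have := (hasSum_choose_mul_geometric_of_norm_lt_one k (r := r) (by rwa [Real.norm_of_nonneg h0])).summable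
    exact this
  -- the series
  have hser : ∀ θ : ℝ, HasSum (fun m : ℕ => ((b m : ℝ) : ℂ) * ec (m * θ)) (1 / (1 - (r : ℂ) * ec θ) ^ (k + 1)) := by
    intro θ
    have h2 := hasSum_choose_mul_geometric_of_norm_lt_one k (r := (r : ℂ) * ec θ) (by
      rw [norm_mul, ec_norm, mul_one, Complex.norm_real, Real.norm_of_nonneg h0]; exact h1)
    refine h2.congr_fun ?_
    intro m
    rw [hb, ec_nat]
    push_cast
    ring
  set F : ℝ → ℂ := fun θ => 1 / (1 - (r : ℂ) * ec θ) ^ (k + 1) with hF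
  have hFe : ∀ θ, Complex.normSq (F θ) = Nr r θ ^ (-(2 * ((k + 1 : ℕ) : ℝ))) := by
    intro θ
    have hp := Nr_pos h0 h1 θ
    rw [hF]
    simp only
    rw [Complex.normSq_eq_norm_sq, norm_div, norm_one, norm_pow, Real.rpow_neg hp.le,
      show (2 * ((k + 1 : ℕ) : ℝ)) = ((2 * (k + 1) : ℕ) : ℝ) by push_cast; ring, Real.rpow_natCast]
    unfold Nr
    rw [div_pow, one_pow, ← pow_mul, one_div, mul_comm 2]
  have hec := ec_cont
  have hFc : Continuous F := by
    rw [hF]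
    refine Continuous.div continuous_const (by fun_prop) fun θ => ?_
    have := Nr_pos h0 h1 θ
    unfold Nr at this
    exact pow_ne_zero _ (norm_pos_iff.1 this)
  have hFb : ∀ θ, ‖F θ‖ ≤ ∑' m, b m := by
    intro θ
    have e0 : F θ = ∑' m : ℕ, ((b m : ℝ) : ℂ) * ec (m * θ) := (hser θ).tsum_eq.symm
    rw [e0]
    refine (norm_tsum_le_tsum_norm ?_).trans (le_of_eq ?_)
    · refine hbs.congr fun m => ?_
      rw [norm_mul, ec_norm, mul_one, Complex.norm_real, Real.norm_of_nonneg (hb0 m)]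
    · refine tsum_congr fun m => ?_
      rw [norm_mul, ec_norm, mul_one, Complex.norm_real, Real.norm_of_nonneg (hb0 m)]
  have hB0 : 0 ≤ ∑' m, b m := tsum_nonneg hb0
  -- the Fourier coefficients
  have hco : ∀ m : ℕ, ∫ θ, F θ * ec (-((m : ℝ) * θ)) ∂uu = ((b m : ℝ) : ℂ) := by
    intro m
    have hint : ∀ n : ℕ, Integrable (fun θ => ((b n : ℝ) : ℂ) * ec (n * θ) * ec (-((m : ℝ) * θ))) uu := by
      intro n
      refine integrable_uu (B := b n) (by fun_prop) fun θ => ?_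
      rw [norm_mul, norm_mul, ec_norm, ec_norm, mul_one, mul_one, Complex.norm_real, Real.norm_of_nonneg (hb0 n)]
    have h3 := hasSum_integral_of_summable_integral_norm (μ := uu)
      (F := fun (n : ℕ) (θ : ℝ) => ((b n : ℝ) : ℂ) * ec (n * θ) * ec (-((m : ℝ) * θ))) hint (by
        refine hbs.congr fun n => ?_
        have : ∀ θ, ‖((b n : ℝ) : ℂ) * ec (n * θ) * ec (-((m : ℝ) * θ))‖ = b n := fun θ => by
          rw [norm_mul, norm_mul, ec_norm, ec_norm, mul_one, mul_one, Complex.norm_real, Real.norm_of_nonneg (hb0 n)]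
        simp only [this]
        rw [uu_one])
    have h4 : ∀ n : ℕ, ∫ θ, ((b n : ℝ) : ℂ) * ec (n * θ) * ec (-((m : ℝ) * θ)) ∂uu = if n = m then ((b m : ℝ) : ℂ) else 0 := by
      intro n
      have e1 : ∀ θ, ((b n : ℝ) : ℂ) * ec (n * θ) * ec (-((m : ℝ) * θ)) = ((b n : ℝ) : ℂ) * ec (((n - m : ℤ) : ℝ) * θ) := by
        intro θ
        rw [mul_assoc, ← ec_add]
        congr 2
        push_cast
        ring
      simp only [e1]
      rw [integral_const_mul, int_ec]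
      by_cases h : n = m
      · rw [if_pos h, if_pos (by rw [h]; ring), h, mul_one]
      · rw [if_neg h, if_neg (fun h' => h (by exact_mod_cast sub_eq_zero.1 h')), mul_zero]
    have h5 : ∀ θ, ∑' n : ℕ, ((b n : ℝ) : ℂ) * ec (n * θ) * ec (-((m : ℝ) * θ)) = F θ * ec (-((m : ℝ) * θ)) := by
      intro θ
      have e0 : ∑' m : ℕ, ((b m : ℝ) : ℂ) * ec (m * θ) = F θ := (hser θ).tsum_eq
      rw [tsum_mul_right, e0]
    have h6 := h3.tsum_eq
    simp only [h5, h4] at h6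
    rw [← h6, tsum_ite_eq]
  -- the square
  have hint2 : ∀ m : ℕ, Integrable (fun θ => ((b m : ℝ) : ℂ) * (F θ * ec (-((m : ℝ) * θ)))) uu := by
    intro m
    refine (integrable_uu (B := ∑' m, b m) (by fun_prop) fun θ => ?_).const_mul _
    rw [norm_mul, ec_norm, mul_one]
    exact hFb θ
  have h7 := hasSum_integral_of_summable_integral_norm (μ := uu)
    (F := fun (m : ℕ) (θ : ℝ) => ((b m : ℝ) : ℂ) * (F θ * ec (-((m : ℝ) * θ)))) hint2 (by
      refine Summable.of_nonneg_of_le (fun m => integral_nonneg fun θ => norm_nonneg _) (fun m => ?_)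
        (hbs.mul_right (∑' m, b m))
      have h8 : ∀ θ, ‖((b m : ℝ) : ℂ) * (F θ * ec (-((m : ℝ) * θ)))‖ ≤ b m * ∑' m, b m := fun θ => by
        rw [norm_mul, norm_mul, ec_norm, mul_one, Complex.norm_real, Real.norm_of_nonneg (hb0 m)]
        exact mul_le_mul_of_nonneg_left (hFb θ) (hb0 m)
      calc _ ≤ ∫ _θ, b m * ∑' m, b m ∂uu := integral_mono (hint2 m).norm (integrable_const _) h8
        _ = _ := uu_one _)
  have h9 : ∀ θ, ∑' m : ℕ, ((b m : ℝ) : ℂ) * (F θ * ec (-((m : ℝ) * θ))) = ((Nr r θ ^ (-(2 * ((k + 1 : ℕ) : ℝ))) : ℝ) : ℂ) := by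
    intro θ
    have e1 : ∀ m : ℕ, ((b m : ℝ) : ℂ) * (F θ * ec (-((m : ℝ) * θ))) =
        F θ * starRingEnd ℂ (((b m : ℝ) : ℂ) * ec (m * θ)) := by
      intro m
      rw [map_mul, Complex.conj_ofReal, ec_conj]
      ring
    simp only [e1]
    have e0 : ∑' m : ℕ, ((b m : ℝ) : ℂ) * ec (m * θ) = F θ := (hser θ).tsum_eq
    rw [tsum_mul_left, ← Complex.conj_tsum, e0, Complex.mul_conj, hFe]
  have h10 := h7.tsum_eq
  simp only [h9] at h10
  have h11 : ∀ m : ℕ, ∫ θ, ((b m : ℝ) : ℂ) * (F θ * ec (-((m : ℝ) * θ))) ∂uu = ((b m ^ 2 : ℝ) : ℂ) := by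
    intro m
    rw [integral_const_mul, hco]
    push_cast
    ring
  simp only [h11] at h10
  rw [integral_complex_ofReal, ← Complex.ofReal_tsum] at h10
  have h12 : ∑' m, b m ^ 2 = LM r ((k + 1 : ℕ) : ℝ) := by
    unfold LM
    exact_mod_cast h10
  rw [← h12]
  refine tsum_congr fun m => ?_
  rw [hb]
  simp only
  rw [mul_pow, ← pow_mul, ← pow_mul, mul_comm m 2]

end

end Pool.Agent.K4H95.ZP
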