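import Pool.Agent.X278.AV.MomQ3
import Pool.Agent.X278.AV.Uni

/-!
# The smooth Euler product of zeta at a point of the critical line
-/

set_option autoImplicit false

namespace Pool.Agent.K4H95.ZP

open Filter Topology Asymptotics Finset ComplexConjugate
open Pool.Agent.W189.ML Pool.Agent.X287.CR Pool.Agent.X278.OP Pool.Agent.X278.AV
open Pool.Agent.W187.UR (Lam)

noncomputable section

/-- the local roots `p^{-it}`, `p^{it}` -/
def be (t : ℝ) (p : Nat.Primes) (i : Fin 2) : ℂ :=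
  if i = 0 then ((p : ℕ) : ℂ) ^ (-(t * Complex.I)) else ((p : ℕ) : ℂ) ^ (t * Complex.I)

lemma be_norm (t : ℝ) (p : Nat.Primes) (i : Fin 2) : ‖be t p i‖ ≤ 1 := by
  have hp : 0 < (p : ℕ) := p.2.pos
  unfold be
  split_ifs
  · rw [Complex.norm_natCast_cpow_of_pos hp]
    simp
  · rw [Complex.norm_natCast_cpow_of_pos hp]
    simp

lemma sq_be (t : ℝ) : Pool.Agent.X278.OP.sq (be t) = be (2 * t) := by
  funext p i
  unfold Pool.Agent.X278.OP.sq be
  split_ifs
  · rw [← Complex.cpow_nat_mul]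
    congr 1
    push_cast
    ring
  · rw [← Complex.cpow_nat_mul]
    congr 1
    push_cast
    ring

/-- the product of two shifts -/
def ZZ (t : ℝ) (s : ℂ) : ℂ := riemannZeta (s + t * Complex.I) * riemannZeta (s - t * Complex.I)

lemma ZZ_prod (t : ℝ) {s : ℂ} (hs : 1 < s.re) : HasProd (Pool.Agent.X287.CR.fac pq (be t) s) (ZZ t s) := by
  have h1 := riemannZeta_eulerProduct_hasProd (s := s + t * Complex.I) (by simpa using hs)
  have h2 := riemannZeta_eulerProduct_hasProd (s := s - t * Complex.I) (by simpa using hs)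
  refine (h1.mul h2).congr_fun ?_
  intro p
  have hp0 : ((p : ℕ) : ℂ) ≠ 0 := by exact_mod_cast p.2.ne_zero
  unfold Pool.Agent.X287.CR.fac pq be
  rw [Fin.prod_univ_two, if_pos rfl, if_neg (by decide), ← Complex.cpow_add _ _ hp0, ← Complex.cpow_add _ _ hp0]
  congr 3
  · congr 1
    ring
  · congr 2
    ring

lemma zeta_mero (s : ℂ) : MeromorphicAt riemannZeta s := by
  have h := mero_L (1 : DirichletCharacter ℂ 1) s
  rwa [DirichletCharacter.LFunction_modOne_eq] at h

lemma ZZ_mero (t : ℝ) (s : ℂ) : MeromorphicAt (ZZ t) s := by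
  have h1 : MeromorphicAt (fun s : ℂ => riemannZeta (s + t * Complex.I)) s :=
    (zeta_mero _).comp_analyticAt (f := riemannZeta) (g := fun s : ℂ => s + t * Complex.I) (by fun_prop)
  have h2 : MeromorphicAt (fun s : ℂ => riemannZeta (s - t * Complex.I)) s :=
    (zeta_mero _).comp_analyticAt (f := riemannZeta) (g := fun s : ℂ => s - t * Complex.I) (by fun_prop)
  exact h1.mul h2

/-- the logarithm of the absolute value of the inverse Euler factor -/
def ell (t : ℝ) (p : ℕ) : ℝ := Real.log ‖1 - (p : ℂ) ^ (-(1 / 2 + t * Complex.I))‖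

lemma pc (t : ℝ) (p : Nat.Primes) : ((p : ℕ) : ℂ) ^ (-(1 / 2 + t * Complex.I)) =
    ((p : ℕ) : ℂ) ^ (-(t * Complex.I)) / ((√((p : ℕ) : ℝ) : ℝ) : ℂ) := by
  have hp0 : ((p : ℕ) : ℂ) ≠ 0 := by exact_mod_cast p.2.ne_zero
  have hp1 : (0 : ℝ) < (p : ℕ) := by exact_mod_cast p.2.pos
  have e1 : -(1 / 2 + t * Complex.I) = -(t * Complex.I) - 1 / 2 := by ring
  rw [e1, Complex.cpow_sub _ _ hp0]
  congr 1
  rw [Real.sqrt_eq_rpow, Complex.ofReal_cpow hp1.le]
  push_cast
  rfl

lemma lf_be (t : ℝ) (p : Nat.Primes) : lf (be t) p = 2 * ell t p := by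
  unfold lf ell be
  rw [Fin.sum_univ_two, if_pos rfl, if_neg (by decide), pc]
  have e1 : 1 - ((p : ℕ) : ℂ) ^ (t * Complex.I) / ((√((p : ℕ) : ℝ) : ℝ) : ℂ) =
      conj (1 - ((p : ℕ) : ℂ) ^ (-(t * Complex.I)) / ((√((p : ℕ) : ℝ) : ℝ) : ℂ)) := by
    rw [map_sub, map_one, map_div₀, Complex.conj_ofReal, conj_cpow_nat]
    congr 3
    rw [map_neg, map_mul, Complex.conj_ofReal, Complex.conj_I]
    ring
  rw [e1, Complex.norm_conj]
  ring

/-- the logarithm is real -/
lemma lg_im (t : ℝ) (p : Nat.Primes) : (lg pq (be t) ((1 / 2 : ℝ) : ℂ) p).im = 0 := by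
  have hβ := be_norm t
  have hp0 : (0 : ℝ) < (p : ℕ) := by exact_mod_cast p.2.pos
  have hx : Complex.exp (-(((1 / 2 : ℝ) : ℂ) * Real.log (pq p))) = (((√((p : ℕ) : ℝ) : ℝ) : ℂ))⁻¹ := by
    have e0 : (pq p : ℕ) = (p : ℕ) := rfl
    rw [Complex.exp_neg, e0, ← Complex.ofReal_mul, ← Complex.ofReal_exp]
    congr 2
    rw [Real.sqrt_eq_rpow, Real.rpow_def_of_pos hp0]
    congr 1
    ring
  have hlt : ∀ i, ‖be t p i * Complex.exp (-(((1 / 2 : ℝ) : ℂ) * Real.log (pq p)))‖ < 1 := by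
    intro i
    rw [hx, ← div_eq_mul_inv]
    exact ((norm_div_sqrt (hβ p i) p).trans (sqrt_two_le p)).trans_lt (by norm_num)
  rw [lg_eq (uni_sys hβ) hlt, Fin.sum_univ_two]
  have e1 : 1 - be t p 1 * Complex.exp (-(((1 / 2 : ℝ) : ℂ) * Real.log (pq p))) =
      conj (1 - be t p 0 * Complex.exp (-(((1 / 2 : ℝ) : ℂ) * Real.log (pq p)))) := by
    rw [hx]
    unfold be
    rw [if_pos rfl, if_neg (by decide), map_sub, map_one, map_mul, map_inv₀, Complex.conj_ofReal, conj_cpow_nat]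
    congr 3
    rw [map_neg, map_mul, Complex.conj_ofReal, Complex.conj_I]
    ring
  set z : ℂ := 1 - be t p 0 * Complex.exp (-(((1 / 2 : ℝ) : ℂ) * Real.log (pq p))) with hz
  have harg : z.arg ≠ Real.pi := by
    have hre : 0 < z.re := by
      have h1 := Complex.abs_re_le_norm (be t p 0 * Complex.exp (-(((1 / 2 : ℝ) : ℂ) * Real.log (pq p))))
      have h2 := le_abs_self (be t p 0 * Complex.exp (-(((1 / 2 : ℝ) : ℂ) * Real.log (pq p)))).re
      have h3 := hlt 0
      rw [hz, Complex.sub_re, Complex.one_re]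
      linarith
    intro h
    have h4 := Complex.arg_eq_pi_iff.1 h
    linarith [h4.1]
  rw [e1, Complex.log_conj _ harg]
  simp

/-- the order and the leading coefficient of the product of the two shifts -/
lemma ZZ_lead (t : ℝ) {M : ℤ} (hM : meromorphicOrderAt (ZZ t) ((1 / 2 : ℝ) : ℂ) = M) :
    ∃ m : ℤ, M = 2 * m ∧ meromorphicOrderAt riemannZeta (1 / 2 + t * Complex.I) = m ∧
      ‖meromorphicTrailingCoeffAt (ZZ t) ((1 / 2 : ℝ) : ℂ)‖ =
        ‖meromorphicTrailingCoeffAt riemannZeta (1 / 2 + t * Complex.I)‖ ^ 2 := by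
  have e0 : ((1 / 2 : ℝ) : ℂ) = 1 / 2 := by push_cast; rfl
  rw [e0] at hM ⊢
  set s₁ : ℂ := 1 / 2 + t * Complex.I with hs₁
  have hz := zeta_mero s₁
  have h1 : MeromorphicAt (fun s : ℂ => riemannZeta (s + t * Complex.I)) (1 / 2) :=
    (zeta_mero _).comp_analyticAt (f := riemannZeta) (g := fun s : ℂ => s + t * Complex.I) (by fun_prop)
  have h2 : MeromorphicAt (fun s : ℂ => riemannZeta (s - t * Complex.I)) (1 / 2) :=
    (zeta_mero _).comp_analyticAt (f := riemannZeta) (g := fun s : ℂ => s - t * Complex.I) (by fun_prop)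
  have hadd : Tendsto (fun s : ℂ => s + t * Complex.I) (𝓝[≠] (1 / 2)) (𝓝[≠] s₁) := by
    refine tendsto_nhdsWithin_of_tendsto_nhds_of_eventually_within _ ?_ ?_
    · exact ((continuous_id.add continuous_const).tendsto (1 / 2 : ℂ)).mono_left nhdsWithin_le_nhds
    · filter_upwards [self_mem_nhdsWithin] with z hz h
      exact hz (add_right_cancel h)
  have hconj : Tendsto (fun s : ℂ => conj s) (𝓝[≠] (1 / 2)) (𝓝[≠] (1 / 2)) := by
    refine tendsto_nhdsWithin_of_tendsto_nhds_of_eventually_within _ ?_ ?_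
    · have := (Complex.continuous_conj.tendsto (1 / 2 : ℂ)).mono_left (nhdsWithin_le_nhds (s := {(1 / 2 : ℂ)}ᶜ))
      have e1 : conj (1 / 2 : ℂ) = 1 / 2 := by rw [map_div₀, map_one, map_ofNat]
      rwa [e1] at this
    · filter_upwards [self_mem_nhdsWithin] with z hz h
      apply hz
      have := congrArg conj h
      rw [Complex.conj_conj] at this
      rw [this, map_div₀, map_one, map_ofNat]
      rfl
  -- the order is finite
  have hne : meromorphicOrderAt riemannZeta s₁ ≠ ⊤ := by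
    intro htop
    have h3 := meromorphicOrderAt_eq_top_iff.1 htop
    have h4 : ∀ᶠ z in 𝓝[≠] (1 / 2 : ℂ), ZZ t z = 0 := by
      filter_upwards [hadd.eventually h3] with z hz
      unfold ZZ
      rw [hz, zero_mul]
    rw [meromorphicOrderAt_eq_top_iff.2 h4] at hM
    exact WithTop.coe_ne_top hM.symm
  obtain ⟨m, hm⟩ := WithTop.ne_top_iff_exists.1 hne
  obtain ⟨g, hg1, hg2, hg3⟩ := (meromorphicOrderAt_eq_int_iff hz).1 hm.symm
  set G : ℂ → ℂ := fun z => g (z + t * Complex.I) * conj (g (conj z + t * Complex.I)) with hG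
  have hA1 : AnalyticAt ℂ (fun z : ℂ => g (z + t * Complex.I)) (1 / 2) :=
    AnalyticAt.fun_comp (g := g) (f := fun z : ℂ => z + t * Complex.I) hg1 (by fun_prop)
  have hA2 : AnalyticAt ℂ (fun z : ℂ => conj (g (conj z + t * Complex.I))) (1 / 2) := by
    rw [Complex.analyticAt_iff_eventually_differentiableAt] at hA1 ⊢
    have hc : Tendsto (fun z : ℂ => conj z) (𝓝 (1 / 2)) (𝓝 (1 / 2)) := by
      have := Complex.continuous_conj.tendsto (1 / 2 : ℂ)
      have e1 : conj (1 / 2 : ℂ) = 1 / 2 := by rw [map_div₀, map_one, map_ofNat]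
      rwa [e1] at this
    filter_upwards [hc.eventually hA1] with z hz
    have h5 := hz.conj_conj
    rw [Complex.conj_conj] at h5
    exact h5
  have hGa : AnalyticAt ℂ G (1 / 2) := hA1.mul hA2
  have e1 : conj (1 / 2 : ℂ) = 1 / 2 := by rw [map_div₀, map_one, map_ofNat]
  have hG0 : G (1 / 2) = g s₁ * conj (g s₁) := by
    rw [hG]
    simp only
    rw [e1, hs₁]
  have hGne : G (1 / 2) ≠ 0 := by
    rw [hG0]
    exact mul_ne_zero hg2 ((map_ne_zero _).2 hg2)
  have hev : ZZ t =ᶠ[𝓝[≠] (1 / 2)] fun z => (z - 1 / 2) ^ (2 * m) • G z := by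
    filter_upwards [hadd.eventually hg3, (hadd.comp hconj).eventually hg3, self_mem_nhdsWithin] with z k1 k2 k3
    have hz0 : z - 1 / 2 ≠ 0 := sub_ne_zero.2 k3
    simp only [Function.comp_apply] at k2
    have k4 : riemannZeta (z - t * Complex.I) = conj (riemannZeta (conj z + t * Complex.I)) := by
      rw [← riemannZeta_conj]
      congr 1
      rw [map_add, map_mul, Complex.conj_conj, Complex.conj_ofReal, Complex.conj_I]
      ring
    unfold ZZ
    rw [k4, k1, k2, smul_eq_mul, smul_eq_mul, smul_eq_mul, map_mul, map_zpow₀, map_sub, map_add, map_mul,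
      Complex.conj_conj, Complex.conj_ofReal, Complex.conj_I, hG]
    simp only
    have e2 : z + t * Complex.I - s₁ = z - 1 / 2 := by rw [hs₁]; ring
    have e3 : z + t * -Complex.I - conj s₁ = z - 1 / 2 := by
      rw [hs₁, map_add, map_mul, Complex.conj_ofReal, Complex.conj_I, e1]
      ring
    rw [e2, e3, two_mul, zpow_add₀ hz0]
    ring
  have hord : meromorphicOrderAt (ZZ t) (1 / 2) = ((2 * m : ℤ) : WithTop ℤ) := by
    have hmz := ZZ_mero t (1 / 2)
    exact (meromorphicOrderAt_eq_int_iff hmz).2 ⟨G, hGa, hGne, hev⟩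
  refine ⟨m, ?_, hm.symm, ?_⟩
  · rw [hM] at hord
    exact_mod_cast hord
  · rw [hGa.meromorphicTrailingCoeffAt_of_ne_zero_of_eq_nhdsNE hGne hev,
      hg1.meromorphicTrailingCoeffAt_of_ne_zero_of_eq_nhdsNE hg2 hg3, hG0, norm_mul, Complex.norm_conj]
    ring

lemma ell_summable (t γ : ℝ) {T : ℝ} (hT : 0 < T) :
    Summable fun p : Nat.Primes => |wr γ (Real.log (p : ℕ) / T) * ell t p| := by
  have G := uni_sys (be_norm t)
  have hs1 : (0 : ℝ) + 1 / 2 ≤ ((1 / 2 : ℝ) : ℂ).re := by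
    rw [Complex.ofReal_re]
    norm_num
  have h1 := Sp_summable G hs1 γ hT
  refine Summable.of_nonneg_of_le (fun p => abs_nonneg _) (fun p => ?_) h1
  have e1 : wr γ (Real.log (p : ℕ) / T) * ell t p =
      1 / 2 * (-(lg pq (be t) ((1 / 2 : ℝ) : ℂ) p) * Wt γ (Real.log (pq p) / T)).re := by
    have e2 := lg_uni (be_norm t) p
    have e3 : (Wt γ (Real.log (pq p) / T)).re = wr γ (Real.log (p : ℕ) / T) := re_Wt γ _
    rw [Complex.mul_re, e2, lf_be, e3, Complex.neg_im, lg_im]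
    ring
  rw [e1, abs_mul, abs_of_pos (by norm_num : (0:ℝ) < 1 / 2)]
  have h2 := Complex.abs_re_le_norm (-(lg pq (be t) ((1 / 2 : ℝ) : ℂ) p) * Wt γ (Real.log (pq p) / T))
  have h3 := abs_nonneg (-(lg pq (be t) ((1 / 2 : ℝ) : ℂ) p) * Wt γ (Real.log (pq p) / T)).re
  linarith

/-- **the limit at a point of the critical line** -/
theorem ptw {t : ℝ} (ht : t ≠ 0) {γ : ℝ} (hγ : Real.pi / 2 < γ) :
    ∃ m : ℤ, meromorphicOrderAt riemannZeta (1 / 2 + t * Complex.I) = m ∧
      Tendsto (fun T : ℝ => T ^ m * Real.exp (-∑' p : Nat.Primes, wr γ (Real.log (p : ℕ) / T) * ell t p)) atTop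
        (𝓝 (Real.exp (m * (Lam γ).re) * ‖meromorphicTrailingCoeffAt riemannZeta (1 / 2 + t * Complex.I)‖)) := by
  have hβ := be_norm t
  have G := uni_sys hβ
  have e0 : ((1 / 2 : ℝ) : ℂ) = 1 / 2 := by push_cast; rfl
  obtain ⟨M, r₀, h1, h2, h3⟩ := G.law (L := ZZ t) (fun s hs => ZZ_prod t (by linarith)) (s₀ := ((1 / 2 : ℝ) : ℂ))
    (by rw [Complex.ofReal_re]; norm_num) (fun x _ _ => ZZ_mero t _) hγ
  -- the squares
  have G2 := sq_sys G
  obtain ⟨n, r₂, k1, -, k3⟩ := G2.law (L := ZZ (2 * t)) (fun s hs => by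
      rw [sq_be]
      exact ZZ_prod (2 * t) (by linarith)) (s₀ := 1) (by rw [Complex.one_re]; norm_num)
      (fun x _ _ => ZZ_mero (2 * t) _) hγ
  have hn : n = 0 := by
    have h4 : (1 : ℂ) + ((2 * t : ℝ) : ℂ) * Complex.I ≠ 1 := by
      intro h
      have := congrArg Complex.im h
      simp at this
      exact ht this
    have h5 : (1 : ℂ) - ((2 * t : ℝ) : ℂ) * Complex.I ≠ 1 := by
      intro h
      have := congrArg Complex.im h
      simp at this
      exact ht this
    have han : AnalyticAt ℂ (ZZ (2 * t)) 1 := by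
      rw [Complex.analyticAt_iff_eventually_differentiableAt]
      have o1 : ∀ᶠ z in 𝓝 (1 : ℂ), z + ((2 * t : ℝ) : ℂ) * Complex.I ≠ 1 := by
        have : Continuous fun z : ℂ => z + ((2 * t : ℝ) : ℂ) * Complex.I := by fun_prop
        exact this.continuousAt.eventually_ne h4
      have o2 : ∀ᶠ z in 𝓝 (1 : ℂ), z - ((2 * t : ℝ) : ℂ) * Complex.I ≠ 1 := by
        have : Continuous fun z : ℂ => z - ((2 * t : ℝ) : ℂ) * Complex.I := by fun_prop
        exact this.continuousAt.eventually_ne h5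
      filter_upwards [o1, o2] with z z1 z2
      unfold ZZ
      refine DifferentiableAt.mul ?_ ?_
      · exact DifferentiableAt.comp (f := fun z : ℂ => z + ((2 * t : ℝ) : ℂ) * Complex.I) z
          (differentiableAt_riemannZeta z1) (by fun_prop)
      · exact DifferentiableAt.comp (f := fun z : ℂ => z - ((2 * t : ℝ) : ℂ) * Complex.I) z
          (differentiableAt_riemannZeta z2) (by fun_prop)
    have hne : ZZ (2 * t) 1 ≠ 0 := by
      unfold ZZ
      refine mul_ne_zero ?_ ?_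
      · exact riemannZeta_ne_zero_of_one_le_re (by simp)
      · exact riemannZeta_ne_zero_of_one_le_re (by simp)
    rw [han.meromorphicOrderAt_eq, han.analyticOrderAt_eq_zero.2 hne] at k1
    have : ((0 : ℤ) : WithTop ℤ) = (n : WithTop ℤ) := by simpa using k1
    exact_mod_cast this.symm
  subst hn
  have h5 := law_places G (s₀ := ((1 / 2 : ℝ) : ℂ)) (by rw [Complex.ofReal_re]; norm_num) γ h3 (n := 0) (r₂ := r₂) (by
    have e1 : (2 * ((1 / 2 : ℝ) : ℂ)) = 1 := by push_cast; norm_num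
    rw [e1]
    exact k3)
  obtain ⟨m, hm, hord, hlead⟩ := ZZ_lead t h1
  refine ⟨m, hord, ?_⟩
  have h6 := h5.tend
  -- the real part
  have hre : ∀ T : ℝ, 0 < T → (Sp pq (be t) ((1 / 2 : ℝ) : ℂ) γ T).re =
      2 * ∑' p : Nat.Primes, wr γ (Real.log (p : ℕ) / T) * ell t p := by
    intro T hT
    have s1 := (Sp_summable G (s₀ := ((1 / 2 : ℝ) : ℂ)) (by rw [Complex.ofReal_re]; norm_num) γ hT).of_norm
    unfold Sp
    rw [Complex.re_tsum s1, ← tsum_mul_left]
    refine tsum_congr fun p => ?_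
    have e2 := lg_uni hβ p
    have e3 : (Wt γ (Real.log (pq p) / T)).re = wr γ (Real.log (p : ℕ) / T) := re_Wt γ _
    rw [Complex.mul_re, e2, lf_be, e3, Complex.neg_im, lg_im]
    ring
  have h7 := (Real.continuous_exp.tendsto _).comp (((Complex.continuous_re.tendsto _).comp h6).const_mul (-(1 / 2)))
  rw [Complex.zero_re, mul_zero, Real.exp_zero] at h7
  have h8 := h7.mul_const (Real.exp (m * (Lam γ).re) * ‖meromorphicTrailingCoeffAt riemannZeta (1 / 2 + t * Complex.I)‖)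
  rw [one_mul] at h8
  refine h8.congr' ?_
  filter_upwards [eventually_gt_atTop (0 : ℝ)] with T hT
  simp only [Function.comp_apply]
  have e1 : (Sp pq (be t) ((1 / 2 : ℝ) : ℂ) γ T - (M * ((Real.log T : ℂ) - Lam γ) - (r₀ - ((0 : ℤ) : ℂ) / 2 * Real.log 2))).re =
      2 * (∑' p : Nat.Primes, wr γ (Real.log (p : ℕ) / T) * ell t p) - 2 * m * Real.log T + 2 * m * (Lam γ).re + r₀.re := by
    rw [Complex.sub_re, hre T hT]
    have e2 : (((0 : ℤ) : ℂ) / 2 * Real.log 2) = 0 := by simp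
    rw [e2, sub_zero, Complex.sub_re, mul_sub, Complex.sub_re]
    have hMm : ((M : ℤ) : ℂ) = ((2 * m : ℝ) : ℂ) := by rw [hm]; push_cast; rfl
    rw [hMm, Complex.re_ofReal_mul, Complex.re_ofReal_mul, Complex.ofReal_re]
    ring
  rw [e1]
  have e5 : ‖meromorphicTrailingCoeffAt riemannZeta (1 / 2 + t * Complex.I)‖ = Real.exp (1 / 2 * r₀.re) := by
    have h9 : ‖meromorphicTrailingCoeffAt riemannZeta (1 / 2 + t * Complex.I)‖ ^ 2 = Real.exp (1 / 2 * r₀.re) ^ 2 := by
      rw [← hlead, h2, Complex.norm_exp, ← Real.exp_nat_mul]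
      congr 1
      push_cast
      ring
    exact (sq_eq_sq₀ (norm_nonneg _) (Real.exp_pos _).le).1 h9
  have e7 : T ^ m = Real.exp (m * Real.log T) := by
    rw [← Real.rpow_intCast, Real.rpow_def_of_pos hT]
    congr 1
    ring
  rw [e5, e7, ← Real.exp_add, ← Real.exp_add, ← Real.exp_add]
  congr 1
  ring

end

end Pool.Agent.K4H95.ZP
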