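import Pool.Agent.K4H95.ZP.Tor
import Pool.Agent.K4H95.ZP.Lm
import Pool.Agent.K4H95.ZP.Ptw

/-!
# The fourth moment of zeta with Euler products
-/

set_option autoImplicit false

namespace Pool.Agent.K4H95.ZP

open Filter Topology MeasureTheory
open Pool.Agent.Y969.SM (Xz w2)
open Pool.Agent.TH806 (ec uu ec_cont ec_norm integrable_uu ec_add ec_zero ec_conj ec_int)
open Pool.Agent.Y852.SX (qd Bq qd_eq rp rp_pos rp_lt rp_sq)
open Pool.Agent.X278.AV (wr prod_asymp wt_sum sqrt_two_le re_Wt)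

noncomputable section

lemma rp_eq {p : ℕ} (hp : p.Prime) : rp p = 1 / √(p : ℝ) := by
  have hp0 : (0:ℝ) < p := by exact_mod_cast hp.pos
  unfold rp
  rw [Real.exp_neg, one_div]
  congr 1
  rw [Real.sqrt_eq_rpow, Real.rpow_def_of_pos hp0]
  congr 1
  ring

lemma rp_le (p : Nat.Primes) : rp p ≤ 3 / 4 := by
  rw [rp_eq p.2]
  exact sqrt_two_le p

lemma Nr_neg (r θ : ℝ) : Nr r (-θ) = Nr r θ := by
  unfold Nr
  have e1 : (1 - (r : ℂ) * ec (-θ)) = starRingEnd ℂ (1 - (r : ℂ) * ec θ) := by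
    rw [map_sub, map_one, map_mul, Complex.conj_ofReal, ec_conj]
  rw [e1, Complex.norm_conj]

lemma fac_eq (p : Nat.Primes) (t : ℝ) : ‖1 - ((p : ℕ) : ℂ) ^ (-(1 / 2 + t * Complex.I))‖ = Nr (rp p) (th p t) := by
  rw [← Nr_neg]
  unfold Nr
  congr 2
  have hp0 : ((p : ℕ) : ℂ) ≠ 0 := by exact_mod_cast p.2.ne_zero
  have hpi : (Real.pi : ℂ) ≠ 0 := by exact_mod_cast Real.pi_ne_zero
  rw [Complex.cpow_def_of_ne_zero hp0]
  unfold rp ec th
  rw [Complex.ofReal_exp, ← Complex.exp_add, ← Complex.natCast_log]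
  congr 1
  push_cast
  field_simp
  ring

lemma ell_eq (p : Nat.Primes) (t : ℝ) : ell t p = Real.log (Nr (rp p) (th p t)) := by
  unfold ell
  rw [fac_eq]

lemma ell_bd (p : Nat.Primes) (t : ℝ) : |ell t p| ≤ 4 * rp p := by
  rw [ell_eq]
  have := Yr_bd (rp_pos p).le (rp_le p) (th p t)
  unfold Yr at this
  rw [abs_neg, abs_mul, abs_of_pos (by norm_num : (0:ℝ) < 2)] at this
  linarith

/-- the local function -/
def fl (w : ℕ → ℝ) (p : ℕ) (θ : ℝ) : ℂ := ((Real.exp (-(2 * w p * Real.log (Nr (rp p) θ))) : ℝ) : ℂ)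

lemma fl_cont (w : ℕ → ℝ) {p : ℕ} (hp : p.Prime) : Continuous (fl w p) := by
  unfold fl
  refine Complex.continuous_ofReal.comp (Real.continuous_exp.comp ?_)
  exact (continuous_const.mul ((Nr_cont _).log fun θ => (Nr_pos (rp_pos p).le (rp_lt p hp) θ).ne')).neg

lemma fl_per (w : ℕ → ℝ) (p : ℕ) (θ : ℝ) : fl w p (θ + 1) = fl w p θ := by
  unfold fl Nr
  rw [Pool.Agent.TH806.ec_add_one]

lemma E_fl (w : ℕ → ℝ) {p : ℕ} (hp : p.Prime) : E p (fl w p) = ((LM (rp p) (2 + w p) / LM (rp p) 2 : ℝ) : ℂ) := by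
  have h0 := (rp_pos p).le
  have h1 := rp_lt p hp
  unfold E
  rw [← LM_two h0 h1]
  have e1 : ∀ θ, fl w p θ * ((qd (rp p) θ : ℝ) : ℂ) = ((Nr (rp p) θ ^ (-(2 * (2 + w p))) : ℝ) : ℂ) := by
    intro θ
    have hN := Nr_pos h0 h1 θ
    unfold fl
    rw [← Complex.ofReal_mul]
    congr 1
    rw [Real.rpow_def_of_pos hN, qd_eq]
    have e2 : ((‖(1 - (rp p : ℂ) * ec θ)‖ ^ 2)⁻¹) ^ 2 = Real.exp (-(4 * Real.log (Nr (rp p) θ))) := by
      have e3 : Nr (rp p) θ ^ 4 = Real.exp (4 * Real.log (Nr (rp p) θ)) := by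
        have := Real.exp_nat_mul (Real.log (Nr (rp p) θ)) 4
        rw [Real.exp_log hN] at this
        rw [← this]
        push_cast
        rfl
      rw [Real.exp_neg, ← e3]
      unfold Nr
      rw [inv_pow, ← pow_mul]
    rw [e2, ← Real.exp_add]
    congr 1
    ring
  simp only [e1]
  rw [integral_complex_ofReal]
  unfold LM
  push_cast
  rfl

/-- the product -/
def Zw (w : ℕ → ℝ) (t : ℝ) : ℝ := Real.exp (-∑' p : Nat.Primes, w p * ell t p)

lemma w_sum {w : ℕ → ℝ} (hw : Summable fun p : Nat.Primes => |w p| * rp p) (t : ℝ) :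
    Summable fun p : Nat.Primes => w p * ell t p := by
  refine Summable.of_norm_bounded (g := fun p : Nat.Primes => 4 * (|w p| * rp p)) (hw.mul_left 4) fun p => ?_
  rw [Real.norm_eq_abs, abs_mul]
  have := ell_bd p t
  have h2 := abs_nonneg (w p)
  calc |w p| * |ell t p| ≤ |w p| * (4 * rp p) := mul_le_mul_of_nonneg_left this h2
    _ = _ := by ring

lemma exp_diff (a b : ℝ) {B : ℝ} (ha : |a| ≤ B) (hb : |b| ≤ B) : |Real.exp a - Real.exp b| ≤ Real.exp B * |a - b| := by
  rcases le_total a b with h | h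
  · rw [abs_of_nonpos (by linarith [Real.exp_le_exp.2 h]), abs_of_nonpos (by linarith)]
    have h1 : Real.exp b - Real.exp a = Real.exp b * (1 - Real.exp (a - b)) := by
      rw [mul_sub, mul_one, ← Real.exp_add]
      congr 2
      ring
    have h2 := Real.add_one_le_exp (a - b)
    have h3 : Real.exp b ≤ Real.exp B := Real.exp_le_exp.2 ((le_abs_self _).trans hb)
    have h4 : 0 ≤ 1 - Real.exp (a - b) := by
      have : Real.exp (a - b) ≤ 1 := Real.exp_le_one_iff.2 (by linarith)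
      linarith
    calc -(Real.exp a - Real.exp b) = Real.exp b * (1 - Real.exp (a - b)) := by rw [← h1]; ring
      _ ≤ Real.exp B * (b - a) := mul_le_mul h3 (by linarith) h4 (Real.exp_pos _).le
      _ = _ := by ring
  · rw [abs_of_nonneg (by linarith [Real.exp_le_exp.2 h]), abs_of_nonneg (by linarith)]
    have h1 : Real.exp a - Real.exp b = Real.exp a * (1 - Real.exp (b - a)) := by
      rw [mul_sub, mul_one, ← Real.exp_add]
      congr 2
      ring
    have h2 := Real.add_one_le_exp (b - a)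
    have h3 : Real.exp a ≤ Real.exp B := Real.exp_le_exp.2 ((le_abs_self _).trans ha)
    have h4 : 0 ≤ 1 - Real.exp (b - a) := by
      have : Real.exp (b - a) ≤ 1 := Real.exp_le_one_iff.2 (by linarith)
      linarith
    rw [h1]
    exact mul_le_mul h3 (by linarith) h4 (Real.exp_pos _).le

/-- the primes below `n` -/
def Pn (n : ℕ) : Finset ℕ := (Finset.range n).filter Nat.Prime

lemma Pn_prime {n p : ℕ} (h : p ∈ Pn n) : p.Prime := (Finset.mem_filter.1 h).2

/-- the same as a finset of primes -/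
def Qn (n : ℕ) : Finset Nat.Primes := (Pn n).subtype Nat.Prime

lemma sum_Qn {M : Type*} [AddCommMonoid M] (n : ℕ) (f : ℕ → M) : ∑ p ∈ Qn n, f p = ∑ p ∈ Pn n, f p :=
  Finset.sum_subtype_of_mem (f := f) (s := Pn n) (p := Nat.Prime) (fun _ hx => Pn_prime hx)

lemma prod_Qn {M : Type*} [CommMonoid M] (n : ℕ) (f : ℕ → M) : ∏ p ∈ Qn n, f p = ∏ p ∈ Pn n, f p :=
  Finset.prod_subtype_of_mem (f := f) (s := Pn n) (p := Nat.Prime) (fun _ hx => Pn_prime hx)

lemma mem_Qn {n : ℕ} {p : Nat.Primes} : p ∈ Qn n ↔ (p : ℕ) < n := by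
  have h : p ∈ Qn n ↔ (p : ℕ) ∈ Pn n := Finset.mem_subtype (p := Nat.Prime) (s := Pn n) (a := p)
  rw [h]
  unfold Pn
  rw [Finset.mem_filter, Finset.mem_range]
  exact ⟨fun h => h.1, fun h => ⟨h, p.2⟩⟩

lemma Qn_tendsto : Tendsto Qn atTop atTop := by
  refine tendsto_atTop_finset_of_monotone ?_ fun p => ⟨(p : ℕ) + 1, ?_⟩
  · intro a b hab x hx
    rw [mem_Qn] at hx ⊢
    exact lt_of_lt_of_le hx hab
  · rw [mem_Qn]
    exact Nat.lt_succ_self _

/-- **the fourth moment with an Euler product** -/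
theorem moment_w {w : ℕ → ℝ} (hw : Summable fun p : Nat.Primes => |w p| * rp p)
    (hL : Summable fun p : Nat.Primes => Real.log (LM (rp p) (2 + w p) / LM (rp p) 2)) :
    Tendsto (fun X : ℝ => (∫ t in (0:ℝ)..X, Xz t ^ 4 * Zw w t ^ (2:ℝ)) / (X * Real.log X ^ 4)) atTop
      (𝓝 (1 / (2 * Real.pi ^ 2) * ∏' p : Nat.Primes, (LM (rp p) (2 + w p) / LM (rp p) 2))) := by
  classical
  have hphi : ∀ p : Nat.Primes, 0 < LM (rp p) (2 + w p) / LM (rp p) 2 := fun p =>
    div_pos (LM_pos' (rp_pos p).le (rp_le p) _) (LM_pos' (rp_pos p).le (rp_le p) _)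
  set S : ℝ := ∑' p : Nat.Primes, |w p| * rp p with hS
  have hS0 : 0 ≤ S := tsum_nonneg fun p => mul_nonneg (abs_nonneg _) (rp_pos p).le
  -- the functions
  set F : ℝ → ℂ := fun t => ((Zw w t ^ (2:ℝ) : ℝ) : ℂ) with hF
  set W : ℕ → ℝ → ℂ := fun n t => ∏ p ∈ Pn n, (if p.Prime then fl w p else fun _ => 1) (th p t) with hW
  have hFe : ∀ t, Zw w t ^ (2:ℝ) = Real.exp (-(2 * ∑' p : Nat.Primes, w p * ell t p)) := by
    intro t
    unfold Zw
    rw [← Real.exp_mul]
    congr 1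
    ring
  have hWe : ∀ n t, W n t = ((Real.exp (-(2 * ∑ p ∈ Qn n, w p * ell t p)) : ℝ) : ℂ) := by
    intro n t
    rw [hW]
    simp only
    have e1 : ∀ p ∈ Pn n, (if p.Prime then fl w p else fun _ => 1) (th p t) =
        ((Real.exp (-(2 * w p * Real.log (Nr (rp p) (th p t)))) : ℝ) : ℂ) := by
      intro p hp
      rw [if_pos (Pn_prime hp)]
      rfl
    rw [Finset.prod_congr rfl e1, ← Complex.ofReal_prod, ← Real.exp_sum]
    congr 2
    have e2 : ∑ p ∈ Qn n, w p * ell t p = ∑ p ∈ Pn n, w p * Real.log (Nr (rp p) (th p t)) := by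
      rw [← sum_Qn n fun p => w p * Real.log (Nr (rp p) (th p t))]
      exact Finset.sum_congr rfl fun p _ => by rw [ell_eq]
    rw [e2, Finset.mul_sum, ← Finset.sum_neg_distrib]
    exact Finset.sum_congr rfl fun p _ => by ring
  have hWc : ∀ n, Continuous (W n) := by
    intro n
    rw [hW]
    refine continuous_finsetProd _ fun p hp => ?_
    rw [if_pos (Pn_prime hp)]
    exact (fl_cont w (Pn_prime hp)).comp (th_cont p)
  -- uniform closeness
  have hclose : ∀ ε : ℝ, 0 < ε → ∀ᶠ n in atTop, ∀ t, ‖F t - W n t‖ ≤ ε := by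
    intro ε hε
    have h1 : Tendsto (fun n => ∑ p ∈ Qn n, |w p| * rp p) atTop (𝓝 S) := hw.hasSum.comp Qn_tendsto
    have hη : 0 < ε / (Real.exp (8 * S) * 8) := by positivity
    filter_upwards [h1.eventually (lt_mem_nhds (by linarith : S - ε / (Real.exp (8 * S) * 8) < S))] with n hn t
    have hws := w_sum hw t
    rw [hF]
    simp only
    rw [hWe, hFe, ← Complex.ofReal_sub, Complex.norm_real, Real.norm_eq_abs]
    have hterm : ∀ p : Nat.Primes, |w p * ell t p| ≤ 4 * (|w p| * rp p) := fun p => by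
      rw [abs_mul]
      have := ell_bd p t
      nlinarith [abs_nonneg (w p)]
    have b1 : |∑' p : Nat.Primes, w p * ell t p| ≤ 4 * S := by
      have h2 : ‖∑' p : Nat.Primes, w p * ell t p‖ ≤ ∑' p : Nat.Primes, 4 * (|w p| * rp p) :=
        tsum_of_norm_bounded (hw.mul_left 4).hasSum hterm
      rwa [tsum_mul_left] at h2
    have b2 : |∑ p ∈ Qn n, w p * ell t p| ≤ 4 * S := by
      refine (Finset.abs_sum_le_sum_abs _ _).trans ((Finset.sum_le_sum fun p _ => hterm p).trans ?_)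
      rw [← Finset.mul_sum]
      exact mul_le_mul_of_nonneg_left (hw.sum_le_tsum _ fun p _ => mul_nonneg (abs_nonneg _) (rp_pos p).le) (by norm_num)
    have b3 : |(∑' p : Nat.Primes, w p * ell t p) - ∑ p ∈ Qn n, w p * ell t p| ≤ 4 * (S - ∑ p ∈ Qn n, |w p| * rp p) := by
      have h3 := hws.sum_add_tsum_compl (s := Qn n)
      have h4 := hw.sum_add_tsum_compl (s := Qn n)
      have e1 : (∑' p : Nat.Primes, w p * ell t p) - ∑ p ∈ Qn n, w p * ell t p =
          ∑' x : ↑((Qn n : Set Nat.Primes)ᶜ), w (x : Nat.Primes) * ell t (x : Nat.Primes) := by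
        rw [← h3]
        ring
      have e2 : S - ∑ p ∈ Qn n, |w p| * rp p =
          ∑' x : ↑((Qn n : Set Nat.Primes)ᶜ), |w (x : Nat.Primes)| * rp (x : Nat.Primes) := by
        rw [hS, ← h4]
        ring
      rw [e1, e2, ← tsum_mul_left]
      have e3 : ∀ x : ↑((Qn n : Set Nat.Primes)ᶜ), ‖w (x : Nat.Primes) * ell t (x : Nat.Primes)‖ ≤
          4 * (|w (x : Nat.Primes)| * rp (x : Nat.Primes)) := fun x => hterm x
      have e4 : HasSum (fun x : ↑((Qn n : Set Nat.Primes)ᶜ) => 4 * (|w (x : Nat.Primes)| * rp (x : Nat.Primes)))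
          (∑' x : ↑((Qn n : Set Nat.Primes)ᶜ), 4 * (|w (x : Nat.Primes)| * rp (x : Nat.Primes))) :=
        ((hw.subtype _).mul_left 4).hasSum
      exact tsum_of_norm_bounded e4 e3
    have h5 := exp_diff (-(2 * ∑' p : Nat.Primes, w p * ell t p)) (-(2 * ∑ p ∈ Qn n, w p * ell t p)) (B := 8 * S)
      (by rw [abs_neg, abs_mul, abs_of_pos (by norm_num : (0:ℝ) < 2)]; linarith)
      (by rw [abs_neg, abs_mul, abs_of_pos (by norm_num : (0:ℝ) < 2)]; linarith)
    refine h5.trans ?_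
    have e3 : -(2 * ∑' p : Nat.Primes, w p * ell t p) - -(2 * ∑ p ∈ Qn n, w p * ell t p) =
        -(2 * ((∑' p : Nat.Primes, w p * ell t p) - ∑ p ∈ Qn n, w p * ell t p)) := by ring
    rw [e3, abs_neg, abs_mul, abs_of_pos (by norm_num : (0:ℝ) < 2)]
    have hE := Real.exp_pos (8 * S)
    calc Real.exp (8 * S) * (2 * |(∑' p : Nat.Primes, w p * ell t p) - ∑ p ∈ Qn n, w p * ell t p|) ≤
        Real.exp (8 * S) * (2 * (4 * (ε / (Real.exp (8 * S) * 8)))) := by
          refine mul_le_mul_of_nonneg_left ?_ hE.le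
          linarith
      _ = ε := by field_simp; ring
  have hFc : Continuous F := by
    have hu : TendstoUniformly W F atTop := by
      rw [Metric.tendstoUniformly_iff]
      intro ε hε
      filter_upwards [hclose (ε / 2) (by positivity)] with n hn t
      rw [dist_eq_norm]
      exact (hn t).trans_lt (by linarith)
    exact hu.continuous (Frequently.of_forall hWc)
  -- the limits
  have hlim : ∀ n, Tendsto (AX (W n)) atTop (𝓝 (((1 / (2 * Real.pi ^ 2) *
      ∏ p ∈ Qn n, (LM (rp p) (2 + w p) / LM (rp p) 2) : ℝ) : ℂ))) := by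
    intro n
    have h6 := tor (fun p => if p.Prime then fl w p else fun _ => 1) (fun p => by
        split_ifs with h
        · exact fl_cont w h
        · exact continuous_const) (fun p θ => by
        split_ifs with h
        · exact fl_per w p θ
        · rfl) (Pn n) (fun p hp => Pn_prime hp) (1, 1) one_ne_zero one_ne_zero (fun p hp hd => by
          have := Nat.le_of_dvd (by norm_num) hd
          have h2 := (Pn_prime hp).two_le
          omega)
    have e1 : ∀ t, ch (1, 1) t = 1 := fun t => by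
      rw [ch_eq one_ne_zero one_ne_zero]
      unfold th
      simp [ec_zero]
    have e2 : Wx (1, 1) = 1 := by
      unfold Wx w2 Pool.Agent.W184.NZ.w1
      simp
    simp only [e1, one_mul, e2] at h6
    have e3 : (((1 / (2 * Real.pi ^ 2) * ∏ p ∈ Qn n, (LM (rp p) (2 + w p) / LM (rp p) 2) : ℝ) : ℂ)) =
        ((1 / (2 * Real.pi ^ 2) : ℝ) : ℂ) * ∏ p ∈ Pn n, E p (if p.Prime then fl w p else fun _ => 1) := by
      rw [Complex.ofReal_mul, prod_Qn n fun p => (LM (rp p) (2 + w p) / LM (rp p) 2), Complex.ofReal_prod]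
      congr 1
      refine Finset.prod_congr rfl fun p hp => ?_
      rw [if_pos (Pn_prime hp), E_fl w (Pn_prime hp)]
    rw [e3]
    exact h6
  have hprod : Tendsto (fun n => 1 / (2 * Real.pi ^ 2) * ∏ p ∈ Qn n, (LM (rp p) (2 + w p) / LM (rp p) 2)) atTop
      (𝓝 (1 / (2 * Real.pi ^ 2) * ∏' p : Nat.Primes, (LM (rp p) (2 + w p) / LM (rp p) 2))) := by
    refine Tendsto.const_mul _ ?_
    have h7 := (Real.multipliable_of_summable_log hphi hL).hasProd
    exact h7.comp Qn_tendsto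
  have hmain := AX_approx (F := F) hFc
    (a := ((1 / (2 * Real.pi ^ 2) * ∏' p : Nat.Primes, (LM (rp p) (2 + w p) / LM (rp p) 2) : ℝ) : ℂ))
    (K := 1) zero_le_one (fun ε hε => by
      obtain ⟨n, hn1, hn2⟩ := ((hclose ε hε).and (Metric.tendsto_nhds.1 hprod ε hε)).exists
      refine ⟨W n, _, hWc n, hn1, ?_, hlim n⟩
      rw [← Complex.ofReal_sub, Complex.norm_real, one_mul, ← dist_eq_norm, dist_comm]
      exact hn2.le)
  -- real parts
  have h8 := (Complex.continuous_re.tendsto _).comp hmain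
  rw [Complex.ofReal_re] at h8
  refine h8.congr fun X => ?_
  simp only [Function.comp_apply]
  unfold AX
  have e1 : ∫ t in (0:ℝ)..X, ((Xz t ^ 4 : ℝ) : ℂ) * F t = ((∫ t in (0:ℝ)..X, Xz t ^ 4 * Zw w t ^ (2:ℝ) : ℝ) : ℂ) := by
    rw [← intervalIntegral.integral_ofReal]
    refine intervalIntegral.integral_congr fun t _ => ?_
    rw [hF]
    push_cast
    rfl
  rw [e1, ← Complex.ofReal_div, Complex.ofReal_re]

end

end Pool.Agent.K4H95.ZP
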