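import Pool.Agent.TH806.N4.Abs
import Pool.Agent.Y739.SX.FA
import Pool.Agent.Y604.SX.AS
import Pool.Agent.Y726.SX.TWC
import Pool.Agent.Y901.SX.A1
import Pool.Agent.Y54.SX.A2
import Pool.Agent.Y475.SX.SHP
import Pool.Agent.Y969.SM.Fin

set_option autoImplicit false

namespace Pool.Agent.K4H95.ZP

open Filter Topology MeasureTheory Pool.Agent.Y969.SM

/-- the fourth moment with a fixed twist -/
theorem as : S_AS := by
  obtain ⟨k0, hk0⟩ := Pool.Agent.Y739.SX.t_FA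
  exact Pool.Agent.Y604.SX.t_AS Pool.Agent.Y726.SX.t_TWC Pool.Agent.TH384.N4_FM.t_FM
      Pool.Agent.TH806.N4.a_ING Pool.Agent.Y901.SX.t_A1 Pool.Agent.Y54.SX.t_A2 ⟨max k0 2, le_max_right _ _, hk0 _ (le_max_left _ _)⟩

/-- the fourth moment in the windows -/
theorem w4 : ∃ C : ℝ, 0 < C ∧ ∀ᶠ T : ℝ in atTop, ∀ κ : ℕ, Pool.Agent.H262R4.TM.Rng T κ →
    ∫ t in Set.Ioi (0:ℝ), Pool.Agent.H306R2.SM.om κ (κ / T) t * Xz t ^ 4 ≤ C * Real.log T ^ 4 := by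
  obtain ⟨k0, hk0⟩ := Pool.Agent.Y739.SX.t_FA
  obtain ⟨C, hC, h⟩ := hk0 k0 le_rfl
  refine ⟨C, hC, ?_⟩
  filter_upwards [h] with T h κ hκ
  exact (h κ hκ).2.2.2.2.2

end Pool.Agent.K4H95.ZP
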