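import Pool.Agent.Y852.SX.D4

/-!
# Trigonometric approximation of periodic functions
-/

set_option autoImplicit false

namespace Pool.Agent.K4H95.ZP

open Filter Topology MeasureTheory
open Pool.Agent.TH806 (ec uu ec_cont ec_norm)

lemma ec_fourier (n : ℤ) (θ : ℝ) : (fourier n : C(AddCircle (1:ℝ), ℂ)) (θ : AddCircle (1:ℝ)) = ec (n * θ) := by
  rw [fourier_coe_apply]
  unfold ec
  congr 1
  push_cast
  ring

/-- uniform approximation of continuous functions of period one -/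
theorem trig_approx {f : ℝ → ℂ} (hf : Continuous f) (hper : ∀ θ, f (θ + 1) = f θ) {ε : ℝ} (hε : 0 < ε) :
    ∃ c : ℤ →₀ ℂ, ∀ θ : ℝ, ‖f θ - ∑ n ∈ c.support, c n * ec (n * θ)‖ ≤ ε := by
  have : Fact ((0:ℝ) < 1) := ⟨one_pos⟩
  have hper' : Function.Periodic f 1 := hper
  let F : C(AddCircle (1:ℝ), ℂ) :=
    ⟨hper'.lift, continuous_coinduced_dom.mpr (by exact hf)⟩
  have hF : ∀ t : ℝ, F (t : AddCircle (1:ℝ)) = f t := fun t => hper'.lift_coe t
  have hmem : F ∈ (Submodule.span ℂ (Set.range (@fourier (1:ℝ)))).topologicalClosure := by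
    rw [span_fourier_closure_eq_top]
    trivial
  obtain ⟨g, hg, hfg⟩ := Metric.mem_closure_iff.mp hmem ε hε
  obtain ⟨c, hc⟩ := Finsupp.mem_span_range_iff_exists_finsupp.1 hg
  refine ⟨c, fun θ => ?_⟩
  have h1 : ‖(F - g) (θ : AddCircle (1:ℝ))‖ ≤ ‖F - g‖ := ContinuousMap.norm_coe_le_norm _ _
  rw [← dist_eq_norm] at h1
  have h2 : (F - g) (θ : AddCircle (1:ℝ)) = f θ - ∑ n ∈ c.support, c n * ec (n * θ) := by
    rw [ContinuousMap.sub_apply, hF, ← hc, Finsupp.sum, ContinuousMap.sum_apply]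
    congr 1
    refine Finset.sum_congr rfl fun n _ => ?_
    rw [ContinuousMap.smul_apply, ec_fourier, smul_eq_mul]
  rw [← h2]
  exact h1.trans hfg.le

end Pool.Agent.K4H95.ZP
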