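import Pool.Agent.K4H95.ZP.Cut
import Pool.Agent.K4H95.ZP.Trig
import Pool.Agent.Y852.SX.Loc

/-!
# The joint distribution of `p^{it}` under the measure `|ζ(1/2+it)|⁴ dt`
-/

set_option autoImplicit false

namespace Pool.Agent.K4H95.ZP

open Filter Topology MeasureTheory
open Pool.Agent.Y969.SM (Xz w2)
open Pool.Agent.W184.NZ (mh mh_cont mh_norm_le w1)
open Pool.Agent.TH806 (ec uu ec_cont ec_norm integrable_uu ec_add ec_zero)
open Pool.Agent.Y852.SX (qd Aq Bq Aq_eq qd_cont qd_nonneg qd_le rp rp_pos rp_lt rp_sq)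

noncomputable section

/-- the normalised mean against `|ζ|⁴` -/
def AX (F : ℝ → ℂ) (X : ℝ) : ℂ :=
  (∫ t in (0:ℝ)..X, ((Xz t ^ 4 : ℝ) : ℂ) * F t) / ((X * Real.log X ^ 4 : ℝ) : ℂ)

/-- the phase of the prime `p` -/
def th (p : ℕ) (t : ℝ) : ℝ := t * Real.log p / (2 * Real.pi)

lemma th_cont (p : ℕ) : Continuous (th p) := by
  unfold th
  fun_prop

/-- the character of a pair -/
def ch (x : ℕ × ℕ) (t : ℝ) : ℂ := ((√((x.1 : ℝ) * x.2) : ℝ) : ℂ) * mh t x

/-- its weight -/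
def Wx (x : ℕ × ℕ) : ℝ := √((x.1 : ℝ) * x.2) * w2 x

lemma ch_cont {x : ℕ × ℕ} (h1 : x.1 ≠ 0) (h2 : x.2 ≠ 0) : Continuous (ch x) := by
  unfold ch
  exact continuous_const.mul (mh_cont h1 h2)

lemma ch_eq {m n : ℕ} (h1 : m ≠ 0) (h2 : n ≠ 0) (t : ℝ) :
    ch (m, n) t = ec (th n t) * ec (-th m t) := by
  have m0 : (0:ℝ) < m := by exact_mod_cast Nat.pos_of_ne_zero h1
  have n0 : (0:ℝ) < n := by exact_mod_cast Nat.pos_of_ne_zero h2
  have m0' : (m:ℂ) ≠ 0 := by exact_mod_cast h1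
  have n0' : (n:ℂ) ≠ 0 := by exact_mod_cast h2
  have e0 : mh t (m, n) = (m : ℂ) ^ (-(1 / 2 + t * Complex.I)) * (n : ℂ) ^ (-(1 / 2 - t * Complex.I)) := rfl
  have e1 : ((√((m : ℝ) * n) : ℝ) : ℂ) = Complex.exp ((1 / 2 : ℂ) * Complex.log m) * Complex.exp ((1 / 2 : ℂ) * Complex.log n) := by
    have : √((m : ℝ) * n) = Real.exp (1 / 2 * Real.log m) * Real.exp (1 / 2 * Real.log n) := by
      rw [Real.sqrt_eq_rpow, Real.mul_rpow m0.le n0.le, Real.rpow_def_of_pos m0, Real.rpow_def_of_pos n0]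
      congr 2 <;> ring
    rw [this]
    push_cast
    rfl
  unfold ch
  rw [e0, e1, Complex.cpow_def_of_ne_zero m0', Complex.cpow_def_of_ne_zero n0']
  unfold ec th
  rw [← Complex.exp_add, ← Complex.exp_add, ← Complex.exp_add, ← Complex.exp_add]
  congr 1
  have hpi : (Real.pi : ℂ) ≠ 0 := by exact_mod_cast Real.pi_ne_zero
  push_cast
  field_simp
  ring

lemma ch_norm {x : ℕ × ℕ} (h1 : x.1 ≠ 0) (h2 : x.2 ≠ 0) (t : ℝ) : ‖ch x t‖ = 1 := by
  obtain ⟨m, n⟩ := x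
  rw [ch_eq h1 h2, norm_mul, ec_norm, ec_norm, mul_one]

/-- the shift of a pair by a power of a prime -/
def sh (x : ℕ × ℕ) (p : ℕ) (n : ℤ) : ℕ × ℕ := (x.1 * p ^ (-n).toNat, x.2 * p ^ n.toNat)

lemma th_mul {a b : ℕ} (ha : a ≠ 0) (hb : b ≠ 0) (t : ℝ) : th (a * b) t = th a t + th b t := by
  unfold th
  have h1 : (a:ℝ) ≠ 0 := by exact_mod_cast ha
  have h2 : (b:ℝ) ≠ 0 := by exact_mod_cast hb
  push_cast
  rw [Real.log_mul h1 h2]
  ring

lemma th_pow (a k : ℕ) (t : ℝ) : th (a ^ k) t = k * th a t := by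
  unfold th
  push_cast
  rw [Real.log_pow]
  ring

lemma ch_sh {x : ℕ × ℕ} (h1 : x.1 ≠ 0) (h2 : x.2 ≠ 0) {p : ℕ} (hp : p.Prime) (n : ℤ) (t : ℝ) :
    ch (sh x p n) t = ch x t * ec (n * th p t) := by
  obtain ⟨a, b⟩ := x
  simp only at h1 h2
  unfold sh
  simp only
  have hp0 : p ≠ 0 := hp.ne_zero
  rw [ch_eq (mul_ne_zero h1 (pow_ne_zero _ hp0)) (mul_ne_zero h2 (pow_ne_zero _ hp0)), ch_eq h1 h2,
    th_mul h2 (pow_ne_zero _ hp0), th_mul h1 (pow_ne_zero _ hp0), th_pow, th_pow, neg_add, ec_add, ec_add]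
  have e1 : ec (((n.toNat : ℕ) : ℝ) * th p t) * ec (-((((-n).toNat : ℕ) : ℝ) * th p t)) = ec (n * th p t) := by
    rw [← ec_add]
    congr 1
    have h3 : ((n.toNat : ℕ) : ℝ) - (((-n).toNat : ℕ) : ℝ) = n := by
      have h4 : ((n.toNat : ℕ) : ℤ) - (((-n).toNat : ℕ) : ℤ) = n := Int.toNat_sub_toNat_neg n
      exact_mod_cast h4
    linear_combination (th p t) * h3
  rw [← e1]
  ring

lemma sh_ne {x : ℕ × ℕ} (h1 : x.1 ≠ 0) (h2 : x.2 ≠ 0) {p : ℕ} (hp : p.Prime) (n : ℤ) :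
    (sh x p n).1 ≠ 0 ∧ (sh x p n).2 ≠ 0 :=
  ⟨mul_ne_zero h1 (pow_ne_zero _ hp.ne_zero), mul_ne_zero h2 (pow_ne_zero _ hp.ne_zero)⟩

/-- the weight of a shifted pair -/
lemma w2_sh {x : ℕ × ℕ} (h1 : x.1 ≠ 0) (h2 : x.2 ≠ 0) {p : ℕ} (hp : p.Prime) (hpx : ¬ p ∣ x.1 * x.2) (n : ℤ) :
    w2 (sh x p n) = w2 x * (1 / (p:ℝ) ^ n.natAbs * (1 + (n.natAbs : ℝ) * (((p:ℝ) - 1) / ((p:ℝ) + 1)))) := by
  obtain ⟨a, b⟩ := x
  simp only at h1 h2 hpx
  have hpa : ¬ p ∣ a := fun h => hpx (h.mul_right _)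
  have hpb : ¬ p ∣ b := fun h => hpx (h.mul_left _)
  have hp0 : p ≠ 0 := hp.ne_zero
  have hpr : (p:ℝ) ≠ 0 := by exact_mod_cast hp0
  have har : (a:ℝ) ≠ 0 := by exact_mod_cast h1
  have hbr : (b:ℝ) ≠ 0 := by exact_mod_cast h2
  by_cases hn : n = 0
  · subst hn
    unfold sh
    simp
  -- the gcd
  have hg : Nat.gcd (a * p ^ (-n).toNat) (b * p ^ n.toNat) = Nat.gcd a b := by
    rcases lt_or_ge n 0 with h | h
    · have e : n.toNat = 0 := by omega
      rw [e, pow_zero, mul_one]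
      exact Nat.Coprime.gcd_mul_right_cancel _ ((Nat.Coprime.pow_left _ ((Nat.Prime.coprime_iff_not_dvd hp).2 hpb)))
    · have e : (-n).toNat = 0 := by omega
      rw [e, pow_zero, mul_one]
      exact Nat.Coprime.gcd_mul_right_cancel_right _ ((Nat.Coprime.pow_left _ ((Nat.Prime.coprime_iff_not_dvd hp).2 hpa)))
  have hpow : (p:ℝ) ^ (-n).toNat * (p:ℝ) ^ n.toNat = (p:ℝ) ^ n.natAbs := by
    rw [← pow_add]
    congr 1
    omega
  have e1 : w1 (sh (a, b) p n) = w1 (a, b) * (1 / (p:ℝ) ^ n.natAbs) := by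
    unfold w1 sh
    simp only
    rw [hg, ← hpow]
    push_cast
    field_simp
  -- the prime factors
  have hpf : ((a * p ^ (-n).toNat) * (b * p ^ n.toNat)).primeFactors = insert p (a * b).primeFactors := by
    have e2 : (a * p ^ (-n).toNat) * (b * p ^ n.toNat) = (a * b) * p ^ n.natAbs := by
      have : p ^ (-n).toNat * p ^ n.toNat = p ^ n.natAbs := by
        rw [← pow_add]
        congr 1
        omega
      rw [← this]
      ring
    rw [e2, Nat.primeFactors_mul (mul_ne_zero h1 h2) (pow_ne_zero _ hp0),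
      Nat.primeFactors_prime_pow (by omega) hp]
    rw [Finset.union_comm]
    rfl
  have hnot : p ∉ (a * b).primeFactors := fun h => hpx (Nat.dvd_of_mem_primeFactors h)
  unfold w2
  rw [e1]
  have e3 : (sh (a, b) p n).1 * (sh (a, b) p n).2 = (a * p ^ (-n).toNat) * (b * p ^ n.toNat) := rfl
  rw [e3, hpf, Finset.prod_insert hnot]
  have hfp : ∀ k : ℕ, (p ^ k).factorization p = k := fun k => by
    rw [Nat.Prime.factorization_pow hp, Finsupp.single_eq_same]
  have hfa : (sh (a, b) p n).1.factorization p = (-n).toNat := by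
    show (a * p ^ (-n).toNat).factorization p = _
    rw [Nat.factorization_mul h1 (pow_ne_zero _ hp0), Finsupp.add_apply, hfp, Nat.factorization_eq_zero_of_not_dvd hpa, zero_add]
  have hfb : (sh (a, b) p n).2.factorization p = n.toNat := by
    show (b * p ^ n.toNat).factorization p = _
    rw [Nat.factorization_mul h2 (pow_ne_zero _ hp0), Finsupp.add_apply, hfp, Nat.factorization_eq_zero_of_not_dvd hpb, zero_add]
  have e4 : ((((sh (a, b) p n).1.factorization p : ℤ) - (sh (a, b) p n).2.factorization p).natAbs) = n.natAbs := by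
    rw [hfa, hfb]
    omega
  rw [e4]
  have e5 : ∏ q ∈ (a * b).primeFactors, (1 + ((((sh (a, b) p n).1.factorization q : ℤ) - (sh (a, b) p n).2.factorization q).natAbs : ℝ) *
      (((q:ℝ) - 1) / ((q:ℝ) + 1))) = ∏ q ∈ ((a, b).1 * (a, b).2).primeFactors,
      (1 + ((((a, b).1.factorization q : ℤ) - (a, b).2.factorization q).natAbs : ℝ) * (((q:ℝ) - 1) / ((q:ℝ) + 1))) := by
    refine Finset.prod_congr rfl fun q hq => ?_
    have hqp : q ≠ p := fun h => hnot (h ▸ hq)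
    have hk : ∀ k : ℕ, (p ^ k).factorization q = 0 := fun k => by
      rw [Nat.Prime.factorization_pow hp, Finsupp.single_apply, if_neg (fun h => hqp h.symm)]
    have h5 : (sh (a, b) p n).1.factorization q = a.factorization q := by
      show (a * p ^ (-n).toNat).factorization q = _
      rw [Nat.factorization_mul h1 (pow_ne_zero _ hp0), Finsupp.add_apply, hk, add_zero]
    have h6 : (sh (a, b) p n).2.factorization q = b.factorization q := by
      show (b * p ^ n.toNat).factorization q = _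
      rw [Nat.factorization_mul h2 (pow_ne_zero _ hp0), Finsupp.add_apply, hk, add_zero]
    rw [h5, h6]
  rw [e5]
  ring

lemma Wx_sh {x : ℕ × ℕ} (h1 : x.1 ≠ 0) (h2 : x.2 ≠ 0) {p : ℕ} (hp : p.Prime) (hpx : ¬ p ∣ x.1 * x.2) (n : ℤ) :
    Wx (sh x p n) = Wx x * (Bq (rp p) n / Bq (rp p) 0) := by
  have hp0 : (0:ℝ) < p := by exact_mod_cast hp.pos
  have hr0 := rp_pos p
  have hr1 := rp_lt p hp
  have hsq := rp_sq p hp
  have hr2 : (1:ℝ) - rp p ^ 2 ≠ 0 := by nlinarith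
  unfold Wx
  rw [w2_sh h1 h2 hp hpx]
  have e1 : √(((sh x p n).1 : ℝ) * (sh x p n).2) = √((x.1 : ℝ) * x.2) * √((p:ℝ) ^ n.natAbs) := by
    rw [← Real.sqrt_mul (by positivity)]
    congr 1
    unfold sh
    simp only
    push_cast
    have : (p:ℝ) ^ (-n).toNat * (p:ℝ) ^ n.toNat = (p:ℝ) ^ n.natAbs := by
      rw [← pow_add]
      congr 1
      omega
    rw [← this]
    ring
  have e2 : √((p:ℝ) ^ n.natAbs) * (1 / (p:ℝ) ^ n.natAbs) = rp p ^ n.natAbs := by
    have hpp : (p:ℝ) = (rp p ^ 2)⁻¹ := by rw [hsq]; field_simp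
    have h3 : √((p:ℝ) ^ n.natAbs) = (rp p ^ n.natAbs)⁻¹ := by
      rw [hpp, inv_pow, ← pow_mul, mul_comm 2, pow_mul, Real.sqrt_inv, Real.sqrt_sq (by positivity)]
    have h4 : (p:ℝ) ^ n.natAbs = ((rp p ^ n.natAbs)⁻¹) ^ 2 := by
      rw [hpp, inv_pow, inv_pow, ← pow_mul, ← pow_mul, mul_comm]
    rw [h3, h4]
    field_simp
  have e3 : ((p:ℝ) - 1) / ((p:ℝ) + 1) = (1 - rp p ^ 2) / (1 + rp p ^ 2) := by
    rw [hsq]
    field_simp
  have e4 : Bq (rp p) n / Bq (rp p) 0 = rp p ^ n.natAbs * (1 + (n.natAbs : ℝ) * ((1 - rp p ^ 2) / (1 + rp p ^ 2))) := by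
    have h5 : (0:ℝ) < 1 + rp p ^ 2 := by positivity
    unfold Bq
    simp only [Int.natAbs_zero, pow_zero, one_mul, Nat.cast_zero, zero_mul, add_zero]
    field_simp
  rw [e4, e1, e3, ← e2]
  ring

/-- the mean of a function of period one against the local measure -/
def E (p : ℕ) (g : ℝ → ℂ) : ℂ := (∫ θ, g θ * ((qd (rp p) θ : ℝ) : ℂ) ∂uu) / ((Bq (rp p) 0 : ℝ) : ℂ)

lemma E_ec {p : ℕ} (hp : p.Prime) (n : ℤ) : E p (fun θ => ec (n * θ)) = ((Bq (rp p) n / Bq (rp p) 0 : ℝ) : ℂ) := by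
  unfold E
  have h := Aq_eq (rp_pos p).le (rp_lt p hp) n
  unfold Aq at h
  rw [h]
  push_cast
  rfl

/-- the untwisted mean -/
lemma AX_one : Tendsto (AX fun _ => 1) atTop (𝓝 ((1 / (2 * Real.pi ^ 2) : ℝ) : ℂ)) := by
  have h := twist (1, 1) one_ne_zero one_ne_zero
  have e1 : w2 (1, 1) = 1 := by
    unfold w2 w1
    simp
  have e2 : ∀ t, mh t (1, 1) = 1 := fun t => (mh t).map_one
  rw [e1] at h
  unfold AX
  simp only [e2] at h
  exact h

lemma AX_ch {x : ℕ × ℕ} (h1 : x.1 ≠ 0) (h2 : x.2 ≠ 0) :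
    Tendsto (AX (ch x)) atTop (𝓝 ((Wx x / (2 * Real.pi ^ 2) : ℝ) : ℂ)) := by
  have h := (twist x h1 h2).const_mul ((√((x.1 : ℝ) * x.2) : ℝ) : ℂ)
  have e1 : ((√((x.1 : ℝ) * x.2) : ℝ) : ℂ) * ((w2 x / (2 * Real.pi ^ 2) : ℝ) : ℂ) =
      ((Wx x / (2 * Real.pi ^ 2) : ℝ) : ℂ) := by
    unfold Wx
    push_cast
    ring
  rw [e1] at h
  refine h.congr fun X => ?_
  unfold AX ch
  rw [← mul_div_assoc, ← intervalIntegral.integral_const_mul]
  congr 1
  refine intervalIntegral.integral_congr fun t _ => ?_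
  ring

lemma X4_cont : Continuous fun t => ((Xz t ^ 4 : ℝ) : ℂ) :=
  Complex.continuous_ofReal.comp (Pool.Agent.Y475.SX.Xz_cont.pow 4)

lemma AX_sub {F G : ℝ → ℂ} (hF : Continuous F) (hG : Continuous G) (X : ℝ) :
    AX F X - AX G X = AX (fun t => F t - G t) X := by
  have i1 : IntervalIntegrable (fun t => ((Xz t ^ 4 : ℝ) : ℂ) * F t) volume 0 X :=
    (X4_cont.mul hF).intervalIntegrable _ _
  have i2 : IntervalIntegrable (fun t => ((Xz t ^ 4 : ℝ) : ℂ) * G t) volume 0 X :=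
    (X4_cont.mul hG).intervalIntegrable _ _
  unfold AX
  rw [← sub_div, ← intervalIntegral.integral_sub i1 i2]
  congr 1
  refine intervalIntegral.integral_congr fun t _ => ?_
  simp only
  ring

lemma AX_bd {F : ℝ → ℂ} (_hF : Continuous F) {M : ℝ} (hM : ∀ t, ‖F t‖ ≤ M) {X : ℝ} (hX : 1 ≤ X) :
    ‖AX F X‖ ≤ M * ‖AX (fun _ => 1) X‖ := by
  have hX0 : 0 ≤ X := by linarith
  have hM0 : 0 ≤ M := (norm_nonneg _).trans (hM 0)
  have hc : Continuous fun t => Xz t ^ 4 := Pool.Agent.Y475.SX.Xz_cont.pow 4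
  have hX4 : ∀ t, 0 ≤ Xz t ^ 4 := fun t => pow_nonneg (norm_nonneg _) 4
  have e1 : ∫ t in (0:ℝ)..X, ((Xz t ^ 4 : ℝ) : ℂ) * 1 = ((∫ t in (0:ℝ)..X, Xz t ^ 4 : ℝ) : ℂ) := by
    rw [← intervalIntegral.integral_ofReal]
    simp
  have h4 : 0 ≤ ∫ t in (0:ℝ)..X, Xz t ^ 4 :=
    intervalIntegral.integral_nonneg hX0 fun t _ => hX4 t
  unfold AX
  rw [e1, norm_div, norm_div, ← mul_div_assoc]
  refine div_le_div_of_nonneg_right ?_ (norm_nonneg _)
  rw [Complex.norm_real, Real.norm_eq_abs, abs_of_nonneg h4, ← intervalIntegral.integral_const_mul]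
  refine intervalIntegral.norm_integral_le_of_norm_le hX0 (Eventually.of_forall fun t _ => ?_)
    ((continuous_const.mul hc).intervalIntegrable _ _)
  rw [norm_mul, Complex.norm_real, Real.norm_of_nonneg (hX4 t), mul_comm]
  exact mul_le_mul_of_nonneg_right (hM t) (hX4 t)

/-- limits through uniform approximation -/
lemma AX_approx {F : ℝ → ℂ} (hF : Continuous F) {a : ℂ} {K : ℝ} (hK : 0 ≤ K)
    (h : ∀ ε : ℝ, 0 < ε → ∃ (G : ℝ → ℂ) (b : ℂ), Continuous G ∧ (∀ t, ‖F t - G t‖ ≤ ε) ∧ ‖a - b‖ ≤ K * ε ∧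
      Tendsto (AX G) atTop (𝓝 b)) : Tendsto (AX F) atTop (𝓝 a) := by
  rw [Metric.tendsto_nhds]
  intro δ hδ
  set c : ℝ := ‖((1 / (2 * Real.pi ^ 2) : ℝ) : ℂ)‖ + 1 with hc
  have hc0 : 0 < c := by positivity
  obtain ⟨G, b, hG, h1, h2, h3⟩ := h (δ / (2 * (c + K + 1))) (by positivity)
  have h4 : ∀ᶠ X : ℝ in atTop, ‖AX (fun _ => 1) X‖ < c :=
    (AX_one.norm).eventually (gt_mem_nhds (by rw [hc]; linarith))
  filter_upwards [h4, Metric.tendsto_nhds.1 h3 (δ / (2 * (c + K + 1))) (by positivity), eventually_ge_atTop (1:ℝ)]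
    with X k1 k2 k3
  have hFG : Continuous fun t => F t - G t := hF.sub hG
  have k4 := AX_bd hFG h1 k3
  rw [← AX_sub hF hG] at k4
  rw [dist_eq_norm] at k2 ⊢
  have e1 : AX F X - a = (AX F X - AX G X) + (AX G X - b) + (b - a) := by ring
  rw [e1]
  have h5 : ‖b - a‖ ≤ K * (δ / (2 * (c + K + 1))) := by rw [norm_sub_rev]; exact h2
  have h6 : δ / (2 * (c + K + 1)) * ‖AX (fun _ => 1) X‖ ≤ δ / (2 * (c + K + 1)) * c :=
    mul_le_mul_of_nonneg_left k1.le (by positivity)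
  calc _ ≤ ‖AX F X - AX G X‖ + ‖AX G X - b‖ + ‖b - a‖ := norm_add₃_le
    _ < δ / (2 * (c + K + 1)) * c + δ / (2 * (c + K + 1)) + K * (δ / (2 * (c + K + 1))) := by linarith
    _ = δ / 2 := by
        field_simp
        ring
    _ < δ := by linarith

lemma per_bd {f : ℝ → ℂ} (hf : Continuous f) (hper : ∀ θ, f (θ + 1) = f θ) : ∃ M : ℝ, 0 < M ∧ ∀ θ, ‖f θ‖ ≤ M := by
  have hp : Function.Periodic f 1 := hper
  obtain ⟨M, hM⟩ := isCompact_Icc.exists_bound_of_continuousOn (s := Set.Icc (0:ℝ) 1) hf.continuousOn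
  refine ⟨max M 1, by positivity, fun θ => ?_⟩
  have h1 : f θ = f (Int.fract θ) := by
    have h2 := hp.sub_zsmul_eq ⌊θ⌋ (x := θ)
    rw [zsmul_eq_mul, mul_one] at h2
    exact h2.symm
  rw [h1]
  exact (hM _ ⟨Int.fract_nonneg _, (Int.fract_lt_one _).le⟩).trans (le_max_left _ _)

/-- the mean of the local measure is linear and bounded -/
lemma E_bd {p : ℕ} (hp : p.Prime) {g h : ℝ → ℂ} (hg : Continuous g) (hh : Continuous h) {M : ℝ}
    (hgM : ∃ B, ∀ θ, ‖g θ‖ ≤ B) (hhM : ∃ B, ∀ θ, ‖h θ‖ ≤ B)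
    (hM : ∀ θ, ‖g θ - h θ‖ ≤ M) : ‖E p g - E p h‖ ≤ M := by
  have hr0 := rp_pos p
  have hr1 := rp_lt p hp
  have hM0 : 0 ≤ M := (norm_nonneg _).trans (hM 0)
  have hqc := qd_cont hr0.le hr1
  have hB0 : ∫ θ, qd (rp p) θ ∂uu = Bq (rp p) 0 := by
    have h1 := Aq_eq hr0.le hr1 0
    unfold Aq at h1
    have e1 : ∀ θ, ec (((0:ℤ):ℝ) * θ) * ((qd (rp p) θ : ℝ) : ℂ) = ((qd (rp p) θ : ℝ) : ℂ) := fun θ => by
      rw [Int.cast_zero, zero_mul, ec_zero, one_mul]
    simp only [e1] at h1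
    rw [integral_complex_ofReal] at h1
    exact_mod_cast h1
  have hBpos : 0 < Bq (rp p) 0 := by
    have hr2 : 0 < (1:ℝ) - rp p ^ 2 := by nlinarith
    unfold Bq
    simp only [Int.natAbs_zero, pow_zero, one_mul, Nat.cast_zero, zero_mul, add_zero]
    positivity
  have hint : ∀ k : ℝ → ℂ, Continuous k → (∃ B, ∀ θ, ‖k θ‖ ≤ B) → Integrable (fun θ => k θ * ((qd (rp p) θ : ℝ) : ℂ)) uu := by
    rintro k hk ⟨B, hB⟩
    refine integrable_uu (B := B * ((1 - rp p)⁻¹) ^ 4) (by fun_prop) fun θ => ?_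
    rw [norm_mul, Complex.norm_real, Real.norm_of_nonneg (qd_nonneg _ _)]
    exact mul_le_mul (hB θ) (qd_le hr0.le hr1 θ) (qd_nonneg _ _) ((norm_nonneg _).trans (hB θ))
  have hqi : Integrable (fun θ => M * qd (rp p) θ) uu := by
    have := (hint (fun _ => 1) continuous_const ⟨1, fun θ => by simp⟩).re
    refine (this.const_mul M).congr (Eventually.of_forall fun θ => ?_)
    simp
  unfold E
  rw [← sub_div, ← integral_sub (hint g hg hgM) (hint h hh hhM), norm_div, Complex.norm_real,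
    Real.norm_of_nonneg hBpos.le, div_le_iff₀ hBpos]
  calc _ ≤ ∫ θ, M * qd (rp p) θ ∂uu := by
        refine norm_integral_le_of_norm_le hqi (Eventually.of_forall fun θ => ?_)
        rw [← sub_mul, norm_mul, Complex.norm_real, Real.norm_of_nonneg (qd_nonneg _ _)]
        exact mul_le_mul_of_nonneg_right (hM θ) (qd_nonneg _ _)
    _ = M * Bq (rp p) 0 := by rw [integral_const_mul, hB0]

lemma E_sum {p : ℕ} (hp : p.Prime) (c : ℤ →₀ ℂ) :
    E p (fun θ => ∑ n ∈ c.support, c n * ec (n * θ)) = ∑ n ∈ c.support, c n * ((Bq (rp p) n / Bq (rp p) 0 : ℝ) : ℂ) := by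
  have hr0 := rp_pos p
  have hr1 := rp_lt p hp
  have hqc := qd_cont hr0.le hr1
  have hec := ec_cont
  have e1 : E p (fun θ => ∑ n ∈ c.support, c n * ec (n * θ)) = ∑ n ∈ c.support, c n * E p (fun θ => ec (n * θ)) := by
    unfold E
    have e2 : ∀ θ, (∑ n ∈ c.support, c n * ec (n * θ)) * ((qd (rp p) θ : ℝ) : ℂ) =
        ∑ n ∈ c.support, c n * (ec (n * θ) * ((qd (rp p) θ : ℝ) : ℂ)) := by
      intro θ
      rw [Finset.sum_mul]
      exact Finset.sum_congr rfl fun n _ => by ring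
    simp only [e2]
    rw [integral_finsetSum]
    · rw [Finset.sum_div]
      refine Finset.sum_congr rfl fun n _ => ?_
      rw [integral_const_mul, mul_div_assoc]
    · intro n _
      refine (integrable_uu (B := ((1 - rp p)⁻¹) ^ 4) (by fun_prop) fun θ => ?_).const_mul _
      rw [norm_mul, ec_norm, one_mul, Complex.norm_real, Real.norm_of_nonneg (qd_nonneg _ _)]
      exact qd_le hr0.le hr1 θ
  rw [e1]
  exact Finset.sum_congr rfl fun n _ => by rw [E_ec hp]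

/-- **the joint distribution of `p^{it}` under `|ζ(1/2+it)|⁴ dt`** -/
theorem tor (f : ℕ → ℝ → ℂ) (hf : ∀ p, Continuous (f p)) (hper : ∀ p θ, f p (θ + 1) = f p θ) (P : Finset ℕ) :
    (∀ p ∈ P, p.Prime) → ∀ x : ℕ × ℕ, x.1 ≠ 0 → x.2 ≠ 0 → (∀ p ∈ P, ¬ p ∣ x.1 * x.2) →
      Tendsto (AX fun t => ch x t * ∏ p ∈ P, f p (th p t)) atTop
        (𝓝 (((Wx x / (2 * Real.pi ^ 2) : ℝ) : ℂ) * ∏ p ∈ P, E p (f p))) := by
  classical
  induction P using Finset.induction_on with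
  | empty =>
    intro _ x h1 h2 _
    simp only [Finset.prod_empty, mul_one]
    exact AX_ch h1 h2
  | insert q P hq ih =>
    intro hP x h1 h2 hx
    have hqp : q.Prime := hP q (Finset.mem_insert_self _ _)
    have hPp : ∀ p ∈ P, p.Prime := fun p hp => hP p (Finset.mem_insert_of_mem hp)
    have hqx : ¬ q ∣ x.1 * x.2 := hx q (Finset.mem_insert_self _ _)
    -- the product over `P`
    have hprodc : Continuous fun t => ∏ p ∈ P, f p (th p t) :=
      continuous_finsetProd _ fun p _ => (hf p).comp (th_cont p)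
    choose B hB0 hB using fun p => per_bd (hf p) (hper p)
    set M : ℝ := ∏ p ∈ P, B p with hMd
    have hM0 : 0 < M := Finset.prod_pos fun p _ => hB0 p
    have hM : ∀ t, ‖∏ p ∈ P, f p (th p t)‖ ≤ M := fun t => by
      rw [norm_prod]
      exact Finset.prod_le_prod (fun p _ => norm_nonneg _) fun p _ => hB p _
    set A : ℂ := ((Wx x / (2 * Real.pi ^ 2) : ℝ) : ℂ) * ∏ p ∈ P, E p (f p) with hA
    have hchc := ch_cont h1 h2
    refine AX_approx (K := ‖A‖ / M) ?_ (by positivity) fun ε hε => ?_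
    · exact hchc.mul (continuous_finsetProd _ fun p _ => (hf p).comp (th_cont p))
    obtain ⟨c, hc⟩ := trig_approx (hf q) (hper q) (ε := ε / M) (by positivity)
    set g : ℝ → ℂ := fun θ => ∑ n ∈ c.support, c n * ec (n * θ) with hg
    have hec := ec_cont
    have hgc : Continuous g := by
      rw [hg]
      exact continuous_finsetSum _ fun n _ => by fun_prop
    refine ⟨fun t => ch x t * (g (th q t) * ∏ p ∈ P, f p (th p t)), A * E q g, ?_, ?_, ?_, ?_⟩
    · exact hchc.mul ((hgc.comp (th_cont q)).mul hprodc)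
    · intro t
      rw [Finset.prod_insert hq, ← mul_sub, ← sub_mul, norm_mul, norm_mul, ch_norm h1 h2, one_mul]
      calc _ ≤ ε / M * M := mul_le_mul (hc _) (hM t) (norm_nonneg _) (by positivity)
        _ = ε := by field_simp
    · rw [Finset.prod_insert hq]
      have e1 : ((Wx x / (2 * Real.pi ^ 2) : ℝ) : ℂ) * (E q (f q) * ∏ p ∈ P, E p (f p)) - A * E q g =
          A * (E q (f q) - E q g) := by
        rw [hA]
        ring
      rw [e1, norm_mul]
      have h5 := E_bd hqp (hf q) hgc ⟨B q, hB q⟩ ⟨∑ n ∈ c.support, ‖c n‖, fun θ => by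
        refine (norm_sum_le _ _).trans (Finset.sum_le_sum fun n _ => ?_)
        rw [norm_mul, ec_norm, mul_one]⟩ hc
      calc ‖A‖ * ‖E q (f q) - E q g‖ ≤ ‖A‖ * (ε / M) := mul_le_mul_of_nonneg_left h5 (norm_nonneg _)
        _ = _ := by ring
    · have hEg : E q g = ∑ n ∈ c.support, c n * ((Bq (rp q) n / Bq (rp q) 0 : ℝ) : ℂ) := E_sum hqp c
      have h6 : ∀ n : ℤ, Tendsto (AX fun t => ch (sh x q n) t * ∏ p ∈ P, f p (th p t)) atTop
          (𝓝 (A * ((Bq (rp q) n / Bq (rp q) 0 : ℝ) : ℂ))) := by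
        intro n
        have h7 := ih hPp (sh x q n) (sh_ne h1 h2 hqp n).1 (sh_ne h1 h2 hqp n).2 (fun p hp hd => by
          have hpp := hPp p hp
          have hpx := hx p (Finset.mem_insert_of_mem hp)
          have hpq : p ≠ q := fun h => hq (h ▸ hp)
          have h8 : p ∣ (x.1 * x.2) * (q ^ (-n).toNat * q ^ n.toNat) := by
            have : (sh x q n).1 * (sh x q n).2 = (x.1 * x.2) * (q ^ (-n).toNat * q ^ n.toNat) := by
              unfold sh
              simp only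
              ring
            rw [← this]
            exact hd
          rcases hpp.dvd_mul.1 h8 with h9 | h9
          · exact hpx h9
          · rw [← pow_add] at h9
            exact hpq ((Nat.prime_dvd_prime_iff_eq hpp hqp).1 (hpp.dvd_of_dvd_pow h9)))
        rw [Wx_sh h1 h2 hqp hqx] at h7
        have e2 : ((Wx x * (Bq (rp q) n / Bq (rp q) 0) / (2 * Real.pi ^ 2) : ℝ) : ℂ) * ∏ p ∈ P, E p (f p) =
            A * ((Bq (rp q) n / Bq (rp q) 0 : ℝ) : ℂ) := by
          rw [hA]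
          push_cast
          ring
        rw [e2] at h7
        exact h7
      have h8 := tendsto_finsetSum c.support fun n _ => (h6 n).const_mul (c n)
      have e3 : ∑ n ∈ c.support, c n * (A * ((Bq (rp q) n / Bq (rp q) 0 : ℝ) : ℂ)) = A * E q g := by
        rw [hEg, Finset.mul_sum]
        exact Finset.sum_congr rfl fun n _ => by ring
      rw [e3] at h8
      refine h8.congr fun X => ?_
      unfold AX
      have hi : ∀ n ∈ c.support, IntervalIntegrable (fun t => c n * (((Xz t ^ 4 : ℝ) : ℂ) *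
          (ch (sh x q n) t * ∏ p ∈ P, f p (th p t)))) volume 0 X := by
        intro n _
        have hcc := ch_cont (sh_ne h1 h2 hqp n).1 (sh_ne h1 h2 hqp n).2
        exact (continuous_const.mul (X4_cont.mul (hcc.mul hprodc))).intervalIntegrable _ _
      simp_rw [← mul_div_assoc, ← intervalIntegral.integral_const_mul]
      rw [← Finset.sum_div, ← intervalIntegral.integral_finsetSum hi]
      congr 1
      refine intervalIntegral.integral_congr fun t _ => ?_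
      simp only [hg, Finset.sum_mul, Finset.mul_sum]
      refine Finset.sum_congr rfl fun n _ => ?_
      rw [ch_sh h1 h2 hqp]
      ring

end

end Pool.Agent.K4H95.ZP
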